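import Mathlib
import Pool.Agent.Helper4.RK.Form

/-!
# ORB-20: layered branching programs of width `w`, every variable on at most `k` edges, are read-`k` programs of width `2 w`

States `Fin w ⊕ Fin w`. For a layer `l` and `i, j : Fin w` let `T_ij = 1 + p_ij (x_{v l i j}) * E_{inl i, inr j}` (a matrix depending on one variable: `GM [v l i j] T_ij`, `Helper4/RK/Form.lean`; compare the proof of `acc_mul` /
`PF.leaf`). `T_ij * T_i'j' = 1 + p_ij E_{inl i, inr j} + p_i'j' E_{inl i', inr j'}` (`E_{inl i, inr j} * E_{inl i', inr j'} = 0`), so the product of the `T_ij` over a list of all pairs `(i, j)` is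
`fromBlocks 1 (M l) 0 1`, `M l = Matrix.of (p_ij (x_{v l i j}))` (general statement by induction on a list `Q` of pairs: the product is `1 + ∑ (i, j) ∈ Q, p_ij E_{inl i, inr j}`, with `GM (Q.map v) _` by `GM.mul`). Multiply by the constant
matrix `S = fromBlocks 0 0 1 0` (`GM.mul_const`): `fromBlocks (M l) 0 1 0`. The product of these matrices over `l < N` has the upper left block `(M 0) * ... * (M (N-1))` (induction; upper right block `0`; for `N = 0` the
identity matrix, `GM.const`). The list of all reads is the concatenation over `l` of the lists of the `v l i j`, so the count of `x` is the cardinality in `hv` (e.g. `List.ofFn`/`Finset.univ.toList` over `Fin N × Fin w × Fin w`).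
`u = Pi.single (inl i) 1`, `v' = Pi.single (inl j) 1`: `PF`, `PF.rki`, then `RKi.reindex` along `Fin w ⊕ Fin w ≃ Fin (2 * w)` (`finSumFinEquiv`, `finCongr`).
-/

set_option autoImplicit false

namespace ORB

open MvPolynomial
open Pool.Agent.Helper4.RK (IsRK)

open Pool.Agent.Helper4.RK (GM PF lay lprod_cons lprod_nil) in
/-- one entry of a layer -/
private theorem gm_entry {m w : ℕ} (x : Fin m) (q : Polynomial ℂ) (a b : Fin w) :
    GM [x] (Matrix.fromBlocks (1 : Matrix (Fin w) (Fin w) (MvPolynomial (Fin m) ℂ))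
      (Matrix.single a b (Polynomial.aeval (X x : MvPolynomial (Fin m) ℂ) q)) 0 1) := by
  refine ⟨[(x, Matrix.fromBlocks 1 (Matrix.single a b q) 0 1)], 1, rfl, ?_⟩
  rw [lprod_cons, lprod_nil, Matrix.mul_one, Matrix.map_one _ C_0 C_1, Matrix.one_mul]
  unfold lay
  rw [Matrix.fromBlocks_map, Matrix.map_zero _ (map_zero _), Matrix.map_one _ (map_zero _) (map_one _),
    Matrix.map_single]

open Pool.Agent.Helper4.RK (GM PF) in
/-- some entries of a layer -/
private theorem gm_entries {m w : ℕ} (v : Fin w → Fin w → Fin m)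
    (p : Fin w → Fin w → Polynomial ℂ) (Q : List (Fin w × Fin w)) :
    GM (Q.map fun q => v q.1 q.2)
      (Matrix.fromBlocks (1 : Matrix (Fin w) (Fin w) (MvPolynomial (Fin m) ℂ))
        (Q.map fun q => Matrix.single q.1 q.2
          (Polynomial.aeval (X (v q.1 q.2) : MvPolynomial (Fin m) ℂ) (p q.1 q.2))).sum 0 1) := by
  induction Q with
  | nil =>
    rw [List.map_nil, List.map_nil, List.sum_nil, Matrix.fromBlocks_one]
    have h := GM.const (n := m) (1 : Matrix (Fin w ⊕ Fin w) (Fin w ⊕ Fin w) ℂ)
    rwa [Matrix.map_one _ C_0 C_1] at h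
  | cons q Q ih =>
    have h := (gm_entry (v q.1 q.2) (p q.1 q.2) q.1 q.2).mul ih
    rw [Matrix.fromBlocks_multiply] at h
    simp only [Matrix.mul_one, Matrix.one_mul, Matrix.mul_zero, Matrix.zero_mul, add_zero,
      zero_add] at h
    rw [List.map_cons, List.map_cons, List.sum_cons, add_comm]
    exact h

open Pool.Agent.Helper4.RK (GM PF) in
/-- a layer -/
private theorem gm_layer {m w : ℕ} (v : Fin w → Fin w → Fin m)
    (p : Fin w → Fin w → Polynomial ℂ) :
    GM ((Finset.univ : Finset (Fin w × Fin w)).toList.map fun q => v q.1 q.2)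
      (Matrix.fromBlocks (Matrix.of fun i j =>
        Polynomial.aeval (X (v i j) : MvPolynomial (Fin m) ℂ) (p i j)) 0
        (1 : Matrix (Fin w) (Fin w) (MvPolynomial (Fin m) ℂ)) 0) := by
  have h := (gm_entries v p (Finset.univ : Finset (Fin w × Fin w)).toList).mul_const
    (Matrix.fromBlocks 0 0 1 0)
  rw [Matrix.fromBlocks_map, Matrix.map_zero _ C_0, Matrix.map_one _ C_0 C_1,
    Matrix.fromBlocks_multiply] at h
  simp only [Matrix.mul_one, Matrix.mul_zero, add_zero, zero_add] at h
  rw [Finset.sum_map_toList, Fintype.sum_prod_type] at h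
  have h1 : (Matrix.of fun i j => Polynomial.aeval (X (v i j) : MvPolynomial (Fin m) ℂ) (p i j)) =
      ∑ i, ∑ j, Matrix.single i j
        (Polynomial.aeval (X (v i j) : MvPolynomial (Fin m) ℂ) (p i j)) := by
    conv_lhs => rw [Matrix.matrix_eq_sum_single (Matrix.of fun i j =>
      Polynomial.aeval (X (v i j) : MvPolynomial (Fin m) ℂ) (p i j))]
    rfl
  rw [h1]
  exact h

open Pool.Agent.Helper4.RK (GM PF) in
/-- the product of the layers -/
private theorem gm_layers {m w : ℕ} : ∀ {N : ℕ} (L : Fin N → List (Fin m))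
    (M : Fin N → Matrix (Fin w) (Fin w) (MvPolynomial (Fin m) ℂ)),
    (∀ l, GM (L l) (Matrix.fromBlocks (M l) 0
      (1 : Matrix (Fin w) (Fin w) (MvPolynomial (Fin m) ℂ)) 0)) →
    ∃ B D : Matrix (Fin w) (Fin w) (MvPolynomial (Fin m) ℂ),
      GM (List.ofFn L).flatten (Matrix.fromBlocks (List.ofFn M).prod 0 B D) := by
  intro N
  induction N with
  | zero =>
    intro L M _
    refine ⟨0, 1, ?_⟩
    rw [List.ofFn_zero, List.ofFn_zero, List.flatten_nil, List.prod_nil, Matrix.fromBlocks_one]
    have h := GM.const (n := m) (1 : Matrix (Fin w ⊕ Fin w) (Fin w ⊕ Fin w) ℂ)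
    rwa [Matrix.map_one _ C_0 C_1] at h
  | succ N ih =>
    intro L M h
    obtain ⟨B, D, hBD⟩ := ih (fun l => L l.succ) (fun l => M l.succ) fun l => h l.succ
    have h1 := (h 0).mul hBD
    rw [Matrix.fromBlocks_multiply] at h1
    simp only [Matrix.one_mul, Matrix.mul_zero, Matrix.zero_mul, add_zero] at h1
    rw [List.ofFn_succ, List.ofFn_succ, List.flatten_cons, List.prod_cons]
    exact ⟨_, _, h1⟩

private theorem count_toList {α β : Type*} [DecidableEq β] (s : Finset α) (f : α → β) (x : β) :
    (s.toList.map f).count x = (s.filter fun a => f a = x).card := by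
  rw [← Multiset.coe_count, ← Multiset.map_coe, Finset.coe_toList, Multiset.count_map,
    Finset.card_def, Finset.filter_val]
  exact congrArg _ (Multiset.filter_congr fun a _ => eq_comm)

theorem abp_isRK {m N w k : ℕ} (v : Fin N → Fin w → Fin w → Fin m)
    (p : Fin N → Fin w → Fin w → Polynomial ℂ)
    (hv : ∀ x, (Finset.univ.filter fun e : Fin N × Fin w × Fin w =>
      v e.1 e.2.1 e.2.2 = x).card ≤ k) (i j : Fin w) :
    IsRK (2 * w) k ((List.ofFn fun l => Matrix.of fun i j =>
      Polynomial.aeval (X (v l i j) : MvPolynomial (Fin m) ℂ) (p l i j)).prod i j) := by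
  classical
  set L : Fin N → List (Fin m) := fun l =>
    (Finset.univ : Finset (Fin w × Fin w)).toList.map fun q => v l q.1 q.2 with hL
  obtain ⟨B, D, hBD⟩ := gm_layers L (fun l => Matrix.of fun i j =>
    Polynomial.aeval (X (v l i j) : MvPolynomial (Fin m) ℂ) (p l i j))
    (fun l => gm_layer (v l) (p l))
  have hPF : Pool.Agent.Helper4.RK.PF (Fin w ⊕ Fin w) (List.ofFn L).flatten
      ((List.ofFn fun l => Matrix.of fun i j =>
        Polynomial.aeval (X (v l i j) : MvPolynomial (Fin m) ℂ) (p l i j)).prod i j) := by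
    refine ⟨_, Pi.single (Sum.inl i) 1, Pi.single (Sum.inl j) 1, hBD, ?_⟩
    rw [Finset.sum_eq_single (Sum.inl i), Finset.sum_eq_single (Sum.inl j)]
    · rw [Pi.single_eq_same, Pi.single_eq_same, C_1, one_mul, mul_one,
        Matrix.fromBlocks_apply₁₁]
    · intro b _ hb
      rw [Pi.single_eq_of_ne hb, C_0, mul_zero]
    · intro h
      exact absurd (Finset.mem_univ _) h
    · intro b _ hb
      refine Finset.sum_eq_zero fun c _ => ?_
      rw [Pi.single_eq_of_ne hb, C_0, zero_mul, zero_mul]
    · intro h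
      exact absurd (Finset.mem_univ _) h
  have hcount : ∀ x, (List.ofFn L).flatten.count x ≤ k := by
    intro x
    refine le_trans (le_of_eq ?_) (hv x)
    rw [List.count_flatten, List.map_ofFn, List.sum_ofFn, Finset.card_filter,
      Fintype.sum_prod_type]
    refine Finset.sum_congr rfl fun l _ => ?_
    rw [Function.comp_apply, hL]
    simp only
    rw [count_toList, Finset.card_filter]
  have e : Fin w ⊕ Fin w ≃ Fin (2 * w) := finSumFinEquiv.trans (finCongr (by ring))
  exact (hPF.reindex e).rki hcount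

end ORB
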