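import Pool.Agent.Helper88.ORB.Size

/-!
# ORB-16: the coordinates of the points have polynomial bit length

Copy `Helper88/LR/Abs.lean` (there the factor `s!` and other parameters; here `K = blk r q w k` blocks, `b = grd n s d`, `h = (Hs n s).card`, entries of `Hs n s` at most `(s + 2)^E₀`, `E₀ = C₀ (n+1)^4 (s+1)^9`
by `AOR.abs_simple`, `JB.mem_enum`): first term `≤ K * b * (b + n)^n ≤ 2^(K + b + (b + n) n)` (there: `gsum_le`, `second_nat`), second term `ζ * newt ≤ b * (t + 1)^h * 2^h * (h * M)` with `t ≤ b`,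
`M = (s + 2)^E₀` (`JB.newt_le`): `≤ 2^(b + b h + h + h + (s + 1) E₀)`. The sum is at most `2 ^` (sum of the exponents + 1). With `X = n + s + d + 2`: `h ≤ C X^21`, `b ≤ C X^22`, `b h ≤ C X^43`,
`(s + 1) E₀ ≤ C X^14`, `(b + n) n ≤ C X^23`.
-/

set_option autoImplicit false

namespace ORB

theorem oabs_succ_le_two_pow (x : ℕ) : x + 1 ≤ 2 ^ x := Nat.lt_two_pow_self

theorem oabs_first_nat {t h b s b' E0 M : ℕ} (ht : t ≤ b) (hb' : b' ≤ b) (hM : M = (s + 2) ^ E0) :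
    b' * ((t + 1) ^ h * 2 ^ h * (h * M)) ≤ 2 ^ (b + (b * h + h + h + (s + 1) * E0)) := by
  have h0 : b' ≤ 2 ^ b := hb'.trans (Nat.lt_two_pow_self).le
  have h1 : (t + 1) ^ h ≤ 2 ^ (b * h) := by
    calc (t + 1) ^ h ≤ (2 ^ t) ^ h := Nat.pow_le_pow_left (oabs_succ_le_two_pow t) _
      _ = 2 ^ (t * h) := by rw [← pow_mul]
      _ ≤ 2 ^ (b * h) := Nat.pow_le_pow_right (by norm_num) (Nat.mul_le_mul_right _ ht)
  have h2 : h ≤ 2 ^ h := (Nat.lt_two_pow_self).le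
  have h3 : M ≤ 2 ^ ((s + 1) * E0) := by
    rw [hM]
    calc (s + 2) ^ E0 ≤ (2 ^ (s + 1)) ^ E0 := Nat.pow_le_pow_left (oabs_succ_le_two_pow (s + 1)) _
      _ = 2 ^ ((s + 1) * E0) := by rw [← pow_mul]
  calc b' * ((t + 1) ^ h * 2 ^ h * (h * M)) ≤
        2 ^ b * (2 ^ (b * h) * 2 ^ h * (2 ^ h * 2 ^ ((s + 1) * E0))) :=
        Nat.mul_le_mul h0 (Nat.mul_le_mul (Nat.mul_le_mul h1 le_rfl) (Nat.mul_le_mul h2 h3))
    _ = 2 ^ (b + (b * h + h + h + (s + 1) * E0)) := by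
        rw [pow_add, pow_add, pow_add, pow_add]
        ring

theorem oabs_second_nat (K b n : ℕ) : K * b * (b + n) ^ n ≤ 2 ^ (K + b + (b + n) * n) := by
  have h1 : (b + n) ^ n ≤ 2 ^ ((b + n) * n) := by
    calc (b + n) ^ n ≤ (2 ^ (b + n)) ^ n := Nat.pow_le_pow_left (Nat.lt_two_pow_self).le _
      _ = 2 ^ ((b + n) * n) := by rw [← pow_mul]
  calc K * b * (b + n) ^ n ≤ 2 ^ K * 2 ^ b * 2 ^ ((b + n) * n) :=
        Nat.mul_le_mul (Nat.mul_le_mul (Nat.lt_two_pow_self).le (Nat.lt_two_pow_self).le) h1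
    _ = 2 ^ (K + b + (b + n) * n) := by rw [pow_add, pow_add]

theorem oabs_two_pow_sum2 (a b : ℕ) : 2 ^ a + 2 ^ b ≤ 2 ^ (a + b + 1) := by
  have h1 : 2 ^ a ≤ 2 ^ (a + b) := Nat.pow_le_pow_right (by norm_num) (by omega)
  have h2 : 2 ^ b ≤ 2 ^ (a + b) := Nat.pow_le_pow_right (by norm_num) (by omega)
  have h4 : 2 ^ (a + b + 1) = 2 * 2 ^ (a + b) := by
    rw [pow_succ]
    ring
  omega

theorem oabs_gsum_le (n K b : ℕ) (z w : Fin K → Fin (b + 1)) (l : Fin n) :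
    |∑ j, ((z j : ℕ) : ℤ) * ∏ l' ∈ Finset.univ.erase l, (((w j : ℕ) : ℤ) - ((l' : ℕ) : ℤ))| ≤
      ((K * b * (b + n) ^ n : ℕ) : ℤ) := by
  have hle : ∀ x : Fin (b + 1), ((x : ℕ) : ℤ) ≤ b := fun x => by
    exact_mod_cast Nat.lt_succ_iff.1 x.2
  have h0 : ∀ x : Fin (b + 1), (0 : ℤ) ≤ ((x : ℕ) : ℤ) := fun x => by positivity
  refine (Finset.abs_sum_le_sum_abs _ _).trans ?_
  refine (Finset.sum_le_card_nsmul _ _ ((b : ℤ) * ((b : ℤ) + n) ^ n) ?_).trans ?_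
  · intro j _
    rw [abs_mul, abs_of_nonneg (h0 (z j))]
    refine mul_le_mul (hle _) ?_ (abs_nonneg _) (by positivity)
    rw [Finset.abs_prod]
    refine (Finset.prod_le_prod (fun _ _ => abs_nonneg _)
      (g := fun _ => (b : ℤ) + n) ?_).trans ?_
    · intro l' _
      have h1 := hle (w j)
      have h2 := h0 (w j)
      have h3 : ((l' : ℕ) : ℤ) ≤ n := by exact_mod_cast l'.2.le
      have h4 : (0 : ℤ) ≤ ((l' : ℕ) : ℤ) := by positivity
      rw [abs_le]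
      constructor
      · linarith
      · have h5 : (0 : ℤ) ≤ n := by positivity
        linarith
    · rw [Finset.prod_const, Finset.card_erase_of_mem (Finset.mem_univ l), Finset.card_univ,
        Fintype.card_fin]
      have hn : 0 < n := l.pos
      have h1 : (1 : ℤ) ≤ (b : ℤ) + n := by
        have : (1 : ℤ) ≤ n := by exact_mod_cast hn
        have h2 : (0 : ℤ) ≤ b := by positivity
        linarith
      exact pow_le_pow_right₀ h1 (by omega)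
  · rw [Finset.card_univ, Fintype.card_fin, nsmul_eq_mul]
    push_cast
    exact le_of_eq (by ring)

theorem oabs_expo_le {n s d K C0 C1 C2 h b : ℕ}
    (hh : h ≤ C1 * (n + s + 2) ^ 21)
    (hb : b + 1 ≤ C2 * (n + s + d + 2) ^ 22) :
    (b + (b * h + h + h + (s + 1) * (C0 * (n + 1) ^ 4 * (s + 1) ^ 9))) +
      (K + b + (b + n) * n) + 1 ≤
    (C2 + (C2 * C1 + C1 + C1 + C0) + (K + C2 + (C2 + 1)) + 1) * (n + s + d + 2) ^ 43 := by
  have hh' : h ≤ C1 * (n + s + d + 2) ^ 21 :=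
    hh.trans (Nat.mul_le_mul le_rfl (Nat.pow_le_pow_left (by omega) _))
  have hn : n ≤ n + s + d + 2 := by omega
  have hn1 : n + 1 ≤ n + s + d + 2 := by omega
  have hs1 : s + 1 ≤ n + s + d + 2 := by omega
  have hX1 : 1 ≤ n + s + d + 2 := by omega
  have hb' : b ≤ C2 * (n + s + d + 2) ^ 22 := by omega
  clear hh hb
  generalize n + s + d + 2 = X at *
  have hpow : ∀ {e : ℕ}, e ≤ 43 → X ^ e ≤ X ^ 43 :=
    fun h => Nat.pow_le_pow_right hX1 h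
  have e2 : b * h ≤ C2 * C1 * X ^ 43 := by
    calc b * h ≤ (C2 * X ^ 22) * (C1 * X ^ 21) := Nat.mul_le_mul hb' hh'
      _ = C2 * C1 * X ^ 43 := by ring
  have e3 : h ≤ C1 * X ^ 43 := hh'.trans (Nat.mul_le_mul le_rfl (hpow (by norm_num)))
  have e4 : (s + 1) * (C0 * (n + 1) ^ 4 * (s + 1) ^ 9) ≤ C0 * X ^ 43 := by
    calc (s + 1) * (C0 * (n + 1) ^ 4 * (s + 1) ^ 9)
        ≤ X * (C0 * X ^ 4 * X ^ 9) :=
          Nat.mul_le_mul hs1 (Nat.mul_le_mul (Nat.mul_le_mul le_rfl (Nat.pow_le_pow_left hn1 4))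
            (Nat.pow_le_pow_left hs1 9))
      _ = C0 * X ^ 14 := by ring
      _ ≤ _ := Nat.mul_le_mul le_rfl (hpow (by norm_num))
  have e5 : K ≤ K * X ^ 43 :=
    Nat.le_mul_of_pos_right _ (Nat.pow_pos (by omega))
  have e6 : b ≤ C2 * X ^ 43 := hb'.trans (Nat.mul_le_mul le_rfl (hpow (by norm_num)))
  have e7 : (b + n) * n ≤ (C2 + 1) * X ^ 43 := by
    calc (b + n) * n ≤ (C2 * X ^ 22 + X ^ 22) * X := by
          refine Nat.mul_le_mul (Nat.add_le_add hb' (hn.trans ?_)) hn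
          exact Nat.le_self_pow (by norm_num) X
      _ = (C2 + 1) * X ^ 23 := by ring
      _ ≤ _ := Nat.mul_le_mul le_rfl (hpow (by norm_num))
  have e8 : 1 ≤ X ^ 43 := Nat.one_le_pow _ _ hX1
  generalize X ^ 43 = Y at e2 e3 e4 e5 e6 e7 e8 ⊢
  calc _ ≤ (C2 * Y + (C2 * C1 * Y + C1 * Y + C1 * Y + C0 * Y)) +
        (K * Y + C2 * Y + (C2 + 1) * Y) + Y :=
        Nat.add_le_add (Nat.add_le_add (Nat.add_le_add e6 (Nat.add_le_add (Nat.add_le_add
          (Nat.add_le_add e2 e3) e3) e4)) (Nat.add_le_add (Nat.add_le_add e5 e6) e7)) e8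
    _ = _ := by ring

theorem abs_oset_le (r q w k : ℕ) : ∃ C : ℕ, ∀ (n s d : ℕ) (a : Fin n → ℤ),
    a ∈ oset n r q w k s d → ∀ l, |a l| ≤ 2 ^ (C * (n + s + d + 2) ^ 43) := by
  obtain ⟨C0, hC0⟩ := AOR.abs_simple
  obtain ⟨C1, hC1⟩ := card_Hs_le
  obtain ⟨C2, hC2⟩ := grd_le
  refine ⟨C2 + (C2 * C1 + C1 + C1 + C0) + (blk r q w k + C2 + (C2 + 1)) + 1,
    fun n s d a ha i => ?_⟩
  obtain ⟨c, -, rfl⟩ := Finset.mem_image.1 ha
  have hex := oabs_expo_le (C0 := C0) (K := blk r q w k) (hC1 n s) (hC2 n s d)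
  have hL : (JB.enum (Hs n s)).length = (Hs n s).card := JB.length_enum _
  have ht : ((c.1.2 : ℕ)) ≤ grd n s d := Nat.lt_succ_iff.1 c.1.2.2
  have hz : ((c.1.1 : ℕ)) ≤ grd n s d := Nat.lt_succ_iff.1 c.1.1.2
  have b1 : |((c.1.1 : ℕ) : ℤ) * JB.newt (JB.enum (Hs n s)) (c.1.2 : ℕ) i| ≤
      ((2 ^ (grd n s d + (grd n s d * (Hs n s).card + (Hs n s).card + (Hs n s).card +
        (s + 1) * (C0 * (n + 1) ^ 4 * (s + 1) ^ 9))) : ℕ) : ℤ) := by
    have h1 := JB.newt_le (JB.enum (Hs n s)) (c.1.2 : ℕ) ((s + 2) ^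
      (C0 * (n + 1) ^ 4 * (s + 1) ^ 9))
      (fun a ha l => hC0 n s s a (JB.mem_enum.1 ha) l) i
    rw [hL] at h1
    rw [abs_mul, Nat.abs_cast]
    refine (mul_le_mul_of_nonneg_left h1 (Int.natCast_nonneg _)).trans ?_
    have h2 := oabs_first_nat (h := (Hs n s).card) (s := s)
      (E0 := C0 * (n + 1) ^ 4 * (s + 1) ^ 9) ht hz rfl
    exact_mod_cast h2
  have b2 := (oabs_gsum_le n (blk r q w k) (grd n s d) c.2.1 c.2.2 i).trans
    (Int.ofNat_le.2 (oabs_second_nat (blk r q w k) (grd n s d) n))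
  refine (abs_add_le _ _).trans ((add_le_add b2 b1).trans ?_)
  have h3 := Int.ofNat_le.2 ((oabs_two_pow_sum2 _ _).trans
    (Nat.pow_le_pow_right (by norm_num : 0 < 2) hex))
  rw [add_comm]
  push_cast at h3 ⊢
  exact h3

end ORB
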