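import Pool.Agent.Helper88.ORB.Frm

/-!
# ORB-18: Jacobian minors in the coordinates `x`

`exists_minor`: let `x : Fin n → ℂ`, `y i = eval x (frm L b i)`, `A = (eval y (pderiv i (P a)))_{a, i}` (`t × m`), `e` with `det (A a (e j)) ≠ 0`: the rows of `A` are independent (a left relation `v A = 0` restricted to the
columns `e` gives `v = 0`). `A * L` (`t × n`) has independent rows: `v A L = 0`, `v A L R = v A = 0` (`exists_rinv`). By `pderiv_frm`, `eval_frm`: `A * L = (eval x (pderiv j (aeval (frm L b) (P a))))_{a, j}`. A `t × n` matrix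
with independent rows has `t` columns `e' : Fin t → Fin n` with nonzero determinant (rank `t`; e.g. `exists_linearIndependent'` for the columns, `Matrix.rank_eq_finrank_span_cols`, or the argument with
`Matrix.exists_submatrix`-lemmas; there may be one in `Helper4/RO/LinAlg.lean`: `exists_mul_eq_one`), and `e'` is injective (two equal columns give determinant zero).
-/

set_option autoImplicit false

namespace ORB

open MvPolynomial

variable {m n : ℕ} (L : Matrix (Fin m) (Fin n) ℂ) (b : Fin m → ℂ)

/-- A matrix of full row rank has a nonzero maximal minor. -/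
theorem exists_cols {t n : ℕ} (B : Matrix (Fin t) (Fin n) ℂ) (h : t ≤ B.rank) :
    ∃ e' : Fin t → Fin n, Function.Injective e' ∧ (B.submatrix id e').det ≠ 0 := by
  classical
  obtain ⟨κ, a, ha, hspan, hli⟩ := exists_linearIndependent' ℂ B.col
  have : Finite κ := Finite.of_injective a ha
  have : Fintype κ := Fintype.ofFinite κ
  have hcard : Fintype.card κ = t := by
    have h1 : Module.finrank ℂ (Submodule.span ℂ (Set.range (B.col ∘ a))) = Fintype.card κ :=
      finrank_span_eq_card hli
    rw [hspan, ← Matrix.rank_eq_finrank_span_cols] at h1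
    have h2 : B.rank ≤ t := by
      have := B.rank_le_card_height
      rwa [Fintype.card_fin] at this
    omega
  let eq : Fin t ≃ κ := (Fintype.equivFinOfCardEq hcard).symm
  refine ⟨a ∘ eq, ha.comp eq.injective, ?_⟩
  have h3 : LinearIndependent ℂ (B.submatrix id (a ∘ eq)).col := by
    have h4 : (B.submatrix id (a ∘ eq)).col = (B.col ∘ a) ∘ eq := by
      ext i j
      rfl
    rw [h4]
    exact hli.comp _ eq.injective
  rw [Matrix.linearIndependent_cols_iff_isUnit] at h3
  exact ((Matrix.isUnit_iff_isUnit_det _).1 h3).ne_zero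

theorem exists_minor (hL : LinearIndependent ℂ fun i => L i) {t : ℕ}
    (P : Fin t → MvPolynomial (Fin m) ℂ) (e : Fin t → Fin m) (x : Fin n → ℂ)
    (h : eval (fun i => eval x (frm L b i))
      (Matrix.of fun i j => pderiv (e j) (P i)).det ≠ 0) :
    ∃ e' : Fin t → Fin n, Function.Injective e' ∧
      eval x (Matrix.of fun i j => pderiv (e' j) (aeval (frm L b) (P i))).det ≠ 0 := by
  classical
  set y : Fin m → ℂ := fun i => eval x (frm L b i) with hy
  set A : Matrix (Fin t) (Fin m) ℂ := Matrix.of fun a i => eval y (pderiv i (P a)) with hA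
  obtain ⟨R, hR⟩ := exists_rinv L hL
  have h1 : (A.submatrix id e).det ≠ 0 := by
    rw [RingHom.map_det] at h
    exact h
  have hsub : ∀ {q r : ℕ} (M : Matrix (Fin t) (Fin q) ℂ) (f : Fin r → Fin q),
      M.submatrix id f = M * (1 : Matrix (Fin q) (Fin q) ℂ).submatrix id f := by
    intro q r M f
    ext i j
    rw [Matrix.mul_apply]
    simp [Matrix.one_apply]
  have h2 : t ≤ (A * L).rank := by
    refine Pool.Agent.Helper4.RO.le_rank_of_det_ne_zero 1 (A * L)
      (R * (1 : Matrix (Fin m) (Fin m) ℂ).submatrix id e) ?_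
    have : (1 : Matrix (Fin t) (Fin t) ℂ) * (A * L) *
        (R * (1 : Matrix (Fin m) (Fin m) ℂ).submatrix id e) = A.submatrix id e := by
      rw [Matrix.one_mul, hsub A e]
      calc A * L * (R * (1 : Matrix (Fin m) (Fin m) ℂ).submatrix id e)
          = A * (L * R) * (1 : Matrix (Fin m) (Fin m) ℂ).submatrix id e := by
            simp only [Matrix.mul_assoc]
        _ = A * (1 : Matrix (Fin m) (Fin m) ℂ).submatrix id e := by rw [hR, Matrix.mul_one]
    rw [this]
    exact h1
  obtain ⟨e', he', hdet⟩ := exists_cols (A * L) h2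
  refine ⟨e', he', ?_⟩
  rw [RingHom.map_det]
  convert hdet using 2
  ext i j
  change eval x (pderiv (e' j) (aeval (frm L b) (P i))) = (A * L) i (e' j)
  rw [pderiv_frm, map_sum, Matrix.mul_apply]
  refine Finset.sum_congr rfl fun k _ => ?_
  rw [map_mul, eval_C, eval_frm, mul_comm]
  rfl

end ORB
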