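import Pool.Agent.Helper88.ORB.Lev
import Pool.Agent.Helper88.ORB.Minor

/-!
# ORB-12: polynomials in programs in unknown coordinates

* `alg_hit`: copy `minor_hit` and `rk_faithful` of `Helper4/RK/Factors.lean`. `norm_trick` for `P` (in `MvPolynomial (Fin m) ℂ`): `t' ≤ r`, `s`, independent `P ∘ s`, `B ≠ 0`, `h` with `aeval (P ∘ s) B = aeval P g * aeval P h`.
`jac_of_algInd`: `e` with `det (pderiv (e j) (P (s i))) ≠ 0`; it is `IsRK (r! * (2 w)^r) (r! * (r k))` (`IsRK.mono`, `IsRK.det`, `IsRK.pderiv` as in `minor_hit`; `hw`). `prog_hit`: `x₀ ∈ lvl n (levO .. + 1)` with the determinant nonzero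
at `y₀ = (frm L b) x₀`. `exists_minor`: `e'` with `eval x₀ (det (pderiv (e' j) (P' i))) ≠ 0`, `P' i = aeval (frm L b) (P (s i))`. `algInd_of_minor` (`K = levO .. + 1`, `M = r`): the
`spec n (K + r) (fun _ => 0) (P' i)` are independent. If `spec n (K + r) (fun _ => 0) (aeval (frm L b) (aeval P g)) = 0` then `aeval (fun i => spec .. (P' i)) B = 0`, `B = 0`. So it is `≠ 0`: some value of the parameters gives a
point `G n (K + r) z w` with `eval ≠ 0` (`MvPolynomial.funext`, `eval_spec`, `cpt` with `ε = 0`: the first term is `0`).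
-/

set_option autoImplicit false

namespace ORB

open MvPolynomial
open Pool.Agent.Helper4.RO (lvl)
open Pool.Agent.Helper4.RK (IsRK)

variable {m n : ℕ} (L : Matrix (Fin m) (Fin n) ℂ) (b : Fin m → ℂ)

private theorem eval_spec_apply {M : ℕ} (ε : Fin n → Polynomial ℤ)
    (π : Option (Fin M ⊕ Fin M) → ℂ) (Q : MvPolynomial (Fin n) ℂ) :
    eval π (Pool.Agent.Helper62.VT.spec n M ε Q) =
      eval (fun l => Pool.Agent.Helper62.VT.cpt n M ε (π none)
        (fun j => π (some (Sum.inl j))) (fun j => π (some (Sum.inr j))) l) Q := by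
  induction Q using MvPolynomial.induction_on with
  | C a =>
    have h6 : Pool.Agent.Helper62.VT.spec n M ε (C a) = C a := by
      rw [← MvPolynomial.algebraMap_eq, AlgHom.commutes]
      rfl
    rw [h6, eval_C, eval_C]
  | add p q hp hq => rw [map_add, map_add, map_add, hp, hq]
  | mul_X p i hp =>
    rw [map_mul, map_mul, map_mul, hp, Pool.Agent.Helper62.VT.eval_spec, eval_X]

theorem alg_hit {t r w k : ℕ} (hw : 1 ≤ w) (hL : LinearIndependent ℂ fun i => L i)
    (P : Fin t → MvPolynomial (Fin m) ℂ) (hP : ∀ i, IsRK w k (P i))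
    (hr : ∀ s : Fin (r + 1) → Fin t, ¬ AlgebraicIndependent ℂ fun i => P (s i))
    (g : MvPolynomial (Fin t) ℂ) (h0 : aeval P g ≠ 0) :
    ∃ x ∈ lvl n (KA r w k),
      eval (fun i : Fin n => x i) (aeval (frm L b) (aeval P g)) ≠ 0 := by
  classical
  obtain ⟨t', ht', s, hs, B, h, hB, hBg⟩ :=
    Pool.Agent.Helper28.D4.norm_trick (r := r) P hr g h0
  obtain ⟨e, hdet⟩ := Pool.Agent.Helper93.D4.jac_of_algInd (fun i => P (s i)) hs
  have hRK : IsRK (r.factorial * (2 * w) ^ r) (r.factorial * (r * k))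
      (Matrix.of fun i j => pderiv (e j) (P (s i))).det := by
    refine IsRK.mono ?_ ?_ (IsRK.det _ fun i j => (hP (s i)).pderiv (e j))
    · exact Nat.mul_le_mul (Nat.factorial_le ht') (Nat.pow_le_pow_right (by omega) ht')
    · exact Nat.mul_le_mul (Nat.factorial_le ht') (Nat.mul_le_mul_right k ht')
  obtain ⟨x₀, hx₀', hx₀⟩ := prog_hit L b hL hRK hdet
  have hKA : KA r w k =
      levO (r.factorial * (r * k)) (r.factorial * (2 * w) ^ r) + 1 + r := rfl
  rw [hKA]
  generalize levO (r.factorial * (r * k)) (r.factorial * (2 * w) ^ r) + 1 = K at hx₀' ⊢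
  obtain ⟨z₀, w₀, hzw⟩ := hx₀'
  rw [eval_frm] at hx₀
  obtain ⟨e', he', hdet'⟩ := exists_minor L b hL (fun i => P (s i)) e _ hx₀
  have h2 : AlgebraicIndependent ℂ
      (fun i => Pool.Agent.Helper62.VT.spec n (K + r) (fun _ => 0)
        (aeval (frm L b) (P (s i)))) := by
    refine Pool.Agent.Helper62.VT.algInd_of_minor (K := K) (M := r) ht'
      (fun i => aeval (frm L b) (P (s i))) e' he' z₀ w₀ ?_
    have h3 : (fun l => Pool.Agent.Helper28.D4.G n K z₀ w₀ l) = fun l : Fin n => x₀ l :=
      funext fun l => (hzw l).symm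
    rw [h3]
    exact hdet'
  by_contra hcon
  push Not at hcon
  have h4 : Pool.Agent.Helper62.VT.spec n (K + r) (fun _ => 0)
      (aeval (frm L b) (aeval P g)) = 0 := by
    apply MvPolynomial.funext
    intro π
    rw [eval_spec_apply, map_zero]
    have h6 := hcon (fun l => if hl : l < n then Pool.Agent.Helper28.D4.G n (K + r)
      (fun j => π (some (Sum.inl j))) (fun j => π (some (Sum.inr j))) ⟨l, hl⟩ else 0)
      ⟨fun j => π (some (Sum.inl j)), fun j => π (some (Sum.inr j)), fun i => by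
        simp⟩
    have h7 : (fun l => Pool.Agent.Helper62.VT.cpt n (K + r) (fun _ => 0) (π none)
          (fun j => π (some (Sum.inl j))) (fun j => π (some (Sum.inr j))) l) =
        (fun i : Fin n => if hl : (i : ℕ) < n then Pool.Agent.Helper28.D4.G n (K + r)
      (fun j => π (some (Sum.inl j))) (fun j => π (some (Sum.inr j))) ⟨i, hl⟩ else 0) := by
      funext l
      simp [Pool.Agent.Helper62.VT.cpt]
    rw [h7]
    exact h6
  have h8 : aeval (frm L b) (aeval (fun i => P (s i)) B) =
      aeval (fun i => aeval (frm L b) (P (s i))) B := comp_aeval_apply _ _ _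
  have h9 : Pool.Agent.Helper62.VT.spec n (K + r) (fun _ => 0)
      (aeval (fun i => aeval (frm L b) (P (s i))) B) =
      aeval (fun i => Pool.Agent.Helper62.VT.spec n (K + r) (fun _ => 0)
        (aeval (frm L b) (P (s i)))) B := comp_aeval_apply _ _ _
  rw [algebraicIndependent_iff] at h2
  apply hB
  apply h2 B
  rw [← h9, ← h8, hBg, map_mul, map_mul, h4, zero_mul]

end ORB
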