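import Mathlib

/-!
# ORB-02: the order of the elements of a finite-dimensional space of polynomials at a general point

Induction on `D` (for all `V`). `V = ⊥` (in particular `D = 0`): nothing to prove. Otherwise `h₁ ∈ V`, `h₁ ≠ 0`, `D ≥ 1`; the linear map `W h = h.derivative * h₁ - h * h₁.derivative` kills `h₁`, so
`V₁ = V.map W` has `finrank ≤ D - 1` (rank-nullity for the restriction of `W` to `V`). Let `B₁` be the set for `V₁`, `D - 1`, and `B = B₁ ∪ h₁.roots.toFinset`. Let `c ∉ B`, `h ∈ V`, `h ≠ 0`, and suppose
`D ≤ rootMultiplicity c h`, i.e. `(X - C c)^D ∣ h`. Then `(X - C c)^(D-1) ∣ h'` (`Polynomial.pow_sub_one_dvd_derivative_of_pow_dvd`), so `(X - C c)^(D-1) ∣ W h`, and `W h ∈ V₁`; by the choice of `B₁`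
(if `W h ≠ 0`, its multiplicity is `< D - 1`) `W h = 0`. With `e = rootMultiplicity c h ≥ 1`, `h = (X - C c)^e * k`, `k(c) ≠ 0`:
`h' h₁ = (X - C c)^(e-1) (e k + (X - C c) k') h₁` and `h h₁'` is divisible by `(X - C c)^e`; so `(X - C c) ∣ (e k + (X - C c) k') h₁`, i.e. `e k(c) h₁(c) = 0`. But `h₁(c) ≠ 0`, `k(c) ≠ 0` and `e ≠ 0` in `F`
(characteristic zero). Contradiction.
-/

set_option autoImplicit false

namespace ORB

theorem exists_bad {F : Type*} [Field F] [CharZero F] (D : ℕ) (V : Submodule F (Polynomial F))
    [FiniteDimensional F V] (hD : Module.finrank F V ≤ D) :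
    ∃ B : Finset F, ∀ c ∉ B, ∀ h ∈ V, h ≠ 0 → h.rootMultiplicity c < D := by
  classical
  induction D generalizing V with
  | zero =>
    refine ⟨∅, fun c _ h hh h0 => ?_⟩
    have h1 : Module.finrank F V = 0 := by omega
    rw [Submodule.finrank_eq_zero] at h1
    rw [h1, Submodule.mem_bot] at hh
    exact absurd hh h0
  | succ D ih =>
    by_cases hV : V = ⊥
    · refine ⟨∅, fun c _ h hh h0 => ?_⟩
      rw [hV, Submodule.mem_bot] at hh
      exact absurd hh h0
    · obtain ⟨g, hg, hg0⟩ := Submodule.exists_mem_ne_zero_of_ne_bot hV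
      let W : Polynomial F →ₗ[F] Polynomial F :=
        (LinearMap.mulRight F g).comp Polynomial.derivative -
          LinearMap.mulRight F (Polynomial.derivative g)
      have hW : ∀ h, W h = Polynomial.derivative h * g - h * Polynomial.derivative g :=
        fun h => rfl
      have hfin : Module.finrank F (V.map W) ≤ D := by
        have h1 := LinearMap.finrank_range_add_finrank_ker (W.domRestrict V)
        have h2 : LinearMap.range (W.domRestrict V) = V.map W := LinearMap.range_domRestrict V W
        rw [h2] at h1
        have h3 : 0 < Module.finrank F (LinearMap.ker (W.domRestrict V)) := by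
          rw [pos_iff_ne_zero, Ne, Submodule.finrank_eq_zero]
          intro h
          have h4 : (⟨g, hg⟩ : V) ∈ LinearMap.ker (W.domRestrict V) := by
            rw [LinearMap.mem_ker, LinearMap.domRestrict_apply, hW]
            ring
          rw [h, Submodule.mem_bot] at h4
          apply hg0
          exact congrArg (fun x => ((x : V) : Polynomial F)) h4
        omega
      obtain ⟨B, hB⟩ := ih (V.map W) hfin
      refine ⟨B ∪ g.roots.toFinset, fun c hc h hh h0 => ?_⟩
      rw [Finset.mem_union, not_or] at hc
      obtain ⟨hc1, hc2⟩ := hc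
      have hgc : g.eval c ≠ 0 := by
        intro h1
        apply hc2
        rw [Multiset.mem_toFinset, Polynomial.mem_roots hg0]
        exact h1
      by_contra hcon
      obtain ⟨e, he⟩ : ∃ e, h.rootMultiplicity c = e + 1 :=
        ⟨h.rootMultiplicity c - 1, by omega⟩
      obtain ⟨k, hk, hkc⟩ := Polynomial.exists_eq_pow_rootMultiplicity_mul_and_not_dvd h h0 c
      rw [he] at hk
      have hkc' : k.eval c ≠ 0 := by
        intro h1
        exact hkc (Polynomial.dvd_iff_isRoot.2 h1)
      obtain ⟨G, hG⟩ : ∃ G : Polynomial F, G = ((e + 1 : ℕ) : Polynomial F) * k * g +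
          (Polynomial.X - Polynomial.C c) *
            (Polynomial.derivative k * g - k * Polynomial.derivative g) := ⟨_, rfl⟩
      have hWh : W h = (Polynomial.X - Polynomial.C c) ^ e * G := by
        rw [hW, hk, Polynomial.derivative_mul, Polynomial.derivative_X_sub_C_pow, hG,
          Nat.add_sub_cancel, pow_succ]
        push_cast
        simp only [map_add, map_one, map_natCast]
        ring
      have hGc : G.eval c ≠ 0 := by
        rw [hG]
        simp only [Polynomial.eval_add, Polynomial.eval_mul, Polynomial.eval_sub,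
          Polynomial.eval_X, Polynomial.eval_C, sub_self, zero_mul, add_zero,
          Polynomial.eval_natCast]
        exact mul_ne_zero (mul_ne_zero (Nat.cast_ne_zero.2 (Nat.succ_ne_zero e)) hkc') hgc
      have hG0 : G ≠ 0 := fun h1 => hGc (by rw [h1, Polynomial.eval_zero])
      have hWh0 : W h ≠ 0 := by
        rw [hWh]
        exact mul_ne_zero (pow_ne_zero _ (Polynomial.X_sub_C_ne_zero c)) hG0
      have h1 := hB c hc1 (W h) (Submodule.mem_map_of_mem hh) hWh0
      have h2 : e ≤ (W h).rootMultiplicity c := by
        rw [Polynomial.le_rootMultiplicity_iff hWh0, hWh]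
        exact dvd_mul_right _ _
      omega

end ORB
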