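import Mathlib
import Pool.Agent.Helper4.RK.Factors
import Pool.Agent.Helper88.LR.Defs
import Pool.Agent.Helper7.PD.Defs

/-!
# ORB (MP_c2aa42_lc): orbits of sparse polynomials and of read-`k` programs under affine maps, definitions

`lvl n K` (`Helper4/RO/Final.lean`) are the points `G n K z w`, `G n K z w i = ∑ j < K, z j * ∏ i' ≠ i, (w j - i')`.
-/

set_option autoImplicit false

namespace ORB

open MvPolynomial
open Pool.Agent.Helper4.RO (Joined IsPoly)
open Pool.Agent.Helper4.RK (trn IsRK RkFactors KF)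
open Pool.Agent.Helper28.D4 (G)

section

variable {F : Type*} [Field F]

/-- In some direction supported on `[0, N)` the order of `g` at `x` is at most `κ`. -/
def DirLE (N κ : ℕ) (g : (ℕ → F) → F) (x : ℕ → F) : Prop :=
  ∃ (u : ℕ → F) (q : Polynomial F), (∀ i, N ≤ i → u i = 0) ∧
    (∀ t : F, g (fun i => x i + t * u i) = q.eval t) ∧ ∃ j ≤ κ, q.coeff j ≠ 0

/-- Increasing families of sets of points, such that a polynomial function of order at most `κ` at a point
of `S k` is not zero everywhere on `S (k + κ)`. -/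
structure IsOL (N : ℕ) (S : ℕ → Set (ℕ → F)) : Prop where
  joined : ∀ k, Joined (S k)
  mono : ∀ k, S k ⊆ S (k + 1)
  nonempty₀ : (S 0).Nonempty
  const : ∀ i < N, ∀ c : F, ∃ x ∈ S 0, x i = c
  taylor : ∀ (k κ : ℕ) (g : (ℕ → F) → F) (x : ℕ → F), IsPoly g → x ∈ S k → DirLE N κ g x →
    ∃ y ∈ S (k + κ), g y ≠ 0

/-- The points whose first `m` coordinates are the values of the affine forms at a point of `S`. -/
def pull {m n : ℕ} (L : Matrix (Fin m) (Fin n) F) (b : Fin m → F) (S : Set (ℕ → F)) :
    Set (ℕ → F) :=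
  {y | ∃ x ∈ S, ∀ i : Fin m, y i = ∑ j : Fin n, L i j * x j + b i}

/-- The polynomial `P` as a function of the variable `j`, the others have the values `y`. -/
noncomputable def slice {t : ℕ} (P : MvPolynomial (Fin t) F) (y : Fin t → F) (j : Fin t) :
    Polynomial F :=
  aeval (fun i => if i = j then Polynomial.X else Polynomial.C (y i)) P

end

/-- Bound for the dimension of the space of functions of one variable. -/
def dm (k w : ℕ) : ℕ := (w + 1) ^ (2 * k)

/-- The number of additional blocks for the width `w`. -/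
def trO (k w : ℕ) : ℕ := trn k w * dm k w

/-- The level at which read-`k` programs of width `W` in unknown coordinates are hit. -/
def levO (k W : ℕ) : ℕ := ∑ r ∈ Finset.range W, trO k (W ^ (r + 1))

/-- The affine forms with the matrix `L` and the constants `b`. -/
noncomputable def frm {m n : ℕ} (L : Matrix (Fin m) (Fin n) ℂ) (b : Fin m → ℂ) (i : Fin m) :
    MvPolynomial (Fin n) ℂ := ∑ j, C (L i j) * X j + C (b i)

/-- The number of blocks for polynomials in programs, no `r + 1` of which are independent. -/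
def KA (r w k : ℕ) : ℕ := levO (r.factorial * (r * k)) (r.factorial * (2 * w) ^ r) + 1 + r

/-! ### The classes -/

/-- Polynomials with at most `s` monomials in linearly independent affine forms. -/
def SparseOrb (n s : ℕ) : Set (MvPolynomial (Fin n) ℂ) :=
  {f | ∃ (m : ℕ) (L : Matrix (Fin m) (Fin n) ℂ) (b : Fin m → ℂ) (F : MvPolynomial (Fin m) ℂ),
    LinearIndependent ℂ (fun i => L i) ∧ F.support.card ≤ s ∧ f = aeval (frm L b) F}

/-- Polynomials in programs (no `r + 1` of them independent) in linearly independent affine forms. -/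
def ProgOrb (n r w k : ℕ) : Set (MvPolynomial (Fin n) ℂ) :=
  {f | ∃ (m : ℕ) (L : Matrix (Fin m) (Fin n) ℂ) (b : Fin m → ℂ) (t : ℕ)
      (P : Fin t → MvPolynomial (Fin m) ℂ) (g : MvPolynomial (Fin t) ℂ),
    LinearIndependent ℂ (fun i => L i) ∧ (∀ i, IsRK w k (P i)) ∧
    (∀ s : Fin (r + 1) ↪ Fin t, ¬ AlgebraicIndependent ℂ fun i => P (s i)) ∧
    f = aeval (frm L b) (aeval P g)}

/-- Polynomials in products of factors (no `r + 1` of the products independent). -/
def Circ (n r q w k : ℕ) : Set (MvPolynomial (Fin n) ℂ) :=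
  {f | ∃ (m : ℕ) (P : Fin m → MvPolynomial (Fin n) ℂ) (g : MvPolynomial (Fin m) ℂ),
    (∀ i, P i ∈ Submonoid.closure (RkFactors n q w k)) ∧
    (∀ s : Fin (r + 1) ↪ Fin m, ¬ AlgebraicIndependent ℂ fun i => P (s i)) ∧ f = aeval P g}

/-! ### The hitting set -/

/-- The number of blocks. -/
def blk (r q w k : ℕ) : ℕ := KA r w k + KF r q w k

/-- The points for the lowest components. -/
def Hs (n s : ℕ) : Finset (Fin n → ℤ) := AOR.hittingSet n s s

/-- The Newton curve through the points of `H`, as a polynomial. -/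
noncomputable def ncv {n : ℕ} (H : Finset (Fin n → ℤ)) (l : Fin n) : Polynomial ℂ :=
  Polynomial.C ((H.card.factorial : ℂ)⁻¹) *
    (LRH.curve (JB.enum H) l).map (Int.castRingHom ℂ)

/-- The family of points: a value of the generator plus a multiple of a point of the curve. -/
def fam (n K : ℕ) (H : Finset (Fin n → ℤ)) : Set (Fin n → ℂ) :=
  {x | ∃ (z w : Fin K → ℂ) (ζ t : ℂ), ∀ l, x l = G n K z w l + ζ * (ncv H l).eval t}

/-- The size of the grid. -/
def grd (n s d : ℕ) : ℕ := d * ((Hs n s).card + n)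

/-- The hitting set. -/
def oset (n r q w k s d : ℕ) : Finset (Fin n → ℤ) :=
  (Finset.univ : Finset ((Fin (grd n s d + 1) × Fin (grd n s d + 1)) ×
    (Fin (blk r q w k) → Fin (grd n s d + 1)) ×
    (Fin (blk r q w k) → Fin (grd n s d + 1)))).image fun c l =>
      ∑ j, ((c.2.1 j : ℕ) : ℤ) *
        ∏ l' ∈ Finset.univ.erase l, (((c.2.2 j : ℕ) : ℤ) - ((l' : ℕ) : ℤ)) +
        ((c.1.1 : ℕ) : ℤ) * JB.newt (JB.enum (Hs n s)) (c.1.2 : ℕ) l

end ORB
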