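import Pool.Agent.Helper88.ORB.Defs

/-!
# ORB-01: order in a direction and few modifications of coordinates

Let `g = eval · p`, `p : MvPolynomial ℕ F` (`IsPoly`), and `u, q, j` as in `DirLE`. Let `p' = bind₁ (fun i => C (x i) + X i) p` (`g (x + v) = eval v p'`). Then
`q(t) = eval (t u) p' = ∑ α ∈ supp p', c α * t ^ |α| * ∏ (u i) ^ (α i)` for all `t`, so (infinite field, `Polynomial.funext`) `q.coeff j = ∑_{|α| = j} c α ∏ (u i)^(α i)`, and some `α` with `|α| = j`,
`c α ≠ 0` has `u i ≠ 0` for all `i ∈ α.support`. `s = α.support ⊆ range N`, `s.card ≤ ∑ α i = j ≤ κ`. The polynomial `p'' = ∑ β ∈ supp p' with β.support ⊆ s, monomial β (c β)` is not zero (coefficient at `α`),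
so `eval v p'' ≠ 0` for some `v` (`MvPolynomial.funext`); with `v' = v` on `s`, `0` off `s`: `eval v' p' = eval v' p'' = eval v p'' ≠ 0` (a monomial with a variable outside `s` is zero at `v'`).
`x' = x + v'`.
-/

set_option autoImplicit false

namespace ORB

open MvPolynomial
open Pool.Agent.Helper4.RO (IsPoly)

variable {F : Type*} [Field F] [Infinite F]

private theorem orb01_eval (x v : ℕ → F) (p : MvPolynomial ℕ F) :
    eval v (bind₁ (fun i => C (x i) + X i) p) = eval (fun i => x i + v i) p := by
  induction p using MvPolynomial.induction_on with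
  | C a => simp
  | add p q hp hq => rw [map_add, map_add, map_add, hp, hq]
  | mul_X p i hp => rw [map_mul, map_mul, map_mul, hp, bind₁_X_right]; simp

theorem exists_modif {N κ : ℕ} {g : (ℕ → F) → F} {x : ℕ → F} (hg : IsPoly g)
    (h : DirLE N κ g x) :
    ∃ s ⊆ Finset.range N, s.card ≤ κ ∧ ∃ x' : ℕ → F, (∀ i ∉ s, x' i = x i) ∧ g x' ≠ 0 := by
  classical
  obtain ⟨p, hp⟩ := hg
  obtain ⟨u, q, hu, hq, j, hj, hqj⟩ := h
  obtain ⟨p', hp'⟩ : ∃ p' : MvPolynomial ℕ F, p' = bind₁ (fun i => C (x i) + X i) p := ⟨_, rfl⟩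
  have hgp : ∀ v : ℕ → F, g (fun i => x i + v i) = eval v p' := fun v => by
    rw [hp, hp', orb01_eval]
  -- the polynomial of one variable
  have hQ : q = ∑ α ∈ p'.support,
      Polynomial.C (coeff α p' * ∏ i ∈ α.support, u i ^ α i) *
        Polynomial.X ^ (∑ i ∈ α.support, α i) := by
    apply Polynomial.funext
    intro t
    rw [← hq, hgp, eval_eq, Polynomial.eval_finsetSum]
    apply Finset.sum_congr rfl
    intro α _
    rw [Polynomial.eval_mul, Polynomial.eval_C, Polynomial.eval_pow, Polynomial.eval_X,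
      mul_assoc, ← Finset.prod_pow_eq_pow_sum, ← Finset.prod_mul_distrib]
    congr 1
    apply Finset.prod_congr rfl
    intro i _
    rw [mul_pow, mul_comm]
  rw [hQ, Polynomial.finsetSum_coeff] at hqj
  obtain ⟨α, hα, hαj⟩ := Finset.exists_ne_zero_of_sum_ne_zero hqj
  rw [Polynomial.coeff_C_mul, Polynomial.coeff_X_pow] at hαj
  have hdeg : j = ∑ i ∈ α.support, α i := by
    by_contra hne
    rw [if_neg hne, mul_zero] at hαj
    exact hαj rfl
  have hprod : ∏ i ∈ α.support, u i ^ α i ≠ 0 :=
    right_ne_zero_of_mul (left_ne_zero_of_mul hαj)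
  have hcα : coeff α p' ≠ 0 := left_ne_zero_of_mul (left_ne_zero_of_mul hαj)
  refine ⟨α.support, ?_, ?_, ?_⟩
  · intro i hi
    rw [Finset.mem_range]
    by_contra hcon
    rw [not_lt] at hcon
    apply hprod
    apply Finset.prod_eq_zero hi
    rw [hu i hcon, zero_pow (Finsupp.mem_support_iff.1 hi)]
  · refine le_trans ?_ hj
    rw [hdeg, Finset.card_eq_sum_ones]
    apply Finset.sum_le_sum
    intro i hi
    exact Nat.one_le_iff_ne_zero.2 (Finsupp.mem_support_iff.1 hi)
  · obtain ⟨p'', hp''⟩ : ∃ p'' : MvPolynomial ℕ F,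
        p'' = ∑ β ∈ p'.support.filter (fun β => β.support ⊆ α.support),
          monomial β (coeff β p') := ⟨_, rfl⟩
    have hne : p'' ≠ 0 := by
      intro h0
      have h1 : coeff α p'' = coeff α p' := by
        rw [hp'', coeff_sum, Finset.sum_eq_single α]
        · rw [coeff_monomial, if_pos rfl]
        · intro β _ hβ
          rw [coeff_monomial, if_neg hβ]
        · intro h2
          exact absurd (Finset.mem_filter.2 ⟨hα, Finset.Subset.refl _⟩) h2
      rw [h0, coeff_zero] at h1
      exact hcα h1.symm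
    obtain ⟨v, hv⟩ : ∃ v : ℕ → F, eval v p'' ≠ 0 := by
      by_contra hcon
      push Not at hcon
      exact hne (MvPolynomial.funext fun v => by rw [hcon v, map_zero])
    obtain ⟨v', hv'⟩ : ∃ v' : ℕ → F, v' = fun i => if i ∈ α.support then v i else 0 := ⟨_, rfl⟩
    have hev : eval v' p' = eval v p'' := by
      rw [eval_eq, hp'', map_sum]
      rw [← Finset.sum_filter_add_sum_filter_not p'.support (fun β => β.support ⊆ α.support)]
      have h0 : ∑ β ∈ p'.support.filter (fun β => ¬ β.support ⊆ α.support),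
          coeff β p' * ∏ i ∈ β.support, v' i ^ β i = 0 := by
        apply Finset.sum_eq_zero
        intro β hβ
        obtain ⟨i, hi, hiα⟩ := Finset.not_subset.1 (Finset.mem_filter.1 hβ).2
        rw [Finset.prod_eq_zero hi, mul_zero]
        rw [hv']
        simp only [if_neg hiα]
        exact zero_pow (Finsupp.mem_support_iff.1 hi)
      rw [h0, add_zero]
      apply Finset.sum_congr rfl
      intro β hβ
      rw [eval_monomial, Finsupp.prod]
      congr 1
      apply Finset.prod_congr rfl
      intro i hi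
      rw [hv']
      simp only [if_pos ((Finset.mem_filter.1 hβ).2 hi)]
    refine ⟨fun i => x i + v' i, ?_, ?_⟩
    · intro i hi
      rw [hv']
      simp only [if_neg hi, add_zero]
    · rw [hgp, hev]
      exact hv

end ORB
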