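import Pool.Agent.Helper88.ORB.Defs

/-!
# ORB-17: a monomial of small degree gives a direction of small order

Choose `α ∈ P.support` with `|α| = ∑ j, α j = l` minimal, `l ≤ κ`. `homogeneousComponent l P ≠ 0` (its coefficient at `α`), so it is nonzero at some `y` (`MvPolynomial.funext`).
`u i = ∑ j, if e j = i then y j else 0` (so `u (e j) = y j`; `u i = 0` for `i ≥ N`), `q = aeval (fun j => Polynomial.C (y j) * Polynomial.X) P`; `q.eval t = eval (t y) P = g (x + t u)` (`hP`), and
`q.coeff l = eval y (homogeneousComponent l P)` (expand `P` as the sum of its monomials `C c * ∏ (C (y j) * X)^(β j) = C (c ∏ (y j)^(β j)) * X^|β|`).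
-/

set_option autoImplicit false

namespace ORB

open MvPolynomial

variable {F : Type*} [Field F] [Infinite F]

omit [Infinite F] in
private theorem coeff_scaled {t : ℕ} (P : MvPolynomial (Fin t) F) (y : Fin t → F) (l : ℕ) :
    (aeval (fun j => Polynomial.C (y j) * Polynomial.X) P : Polynomial F).coeff l =
      eval y (homogeneousComponent l P) := by
  rw [homogeneousComponent_apply, map_sum, aeval_def, eval₂_eq', Polynomial.finsetSum_coeff,
    Finset.sum_filter]
  refine Finset.sum_congr rfl fun d _ => ?_
  have h1 : (∏ i, (Polynomial.C (y i) * Polynomial.X) ^ d i : Polynomial F) =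
      Polynomial.C (∏ i, y i ^ d i) * Polynomial.X ^ d.degree := by
    rw [map_prod, Finsupp.degree_eq_sum, ← Finset.prod_pow_eq_pow_sum, ← Finset.prod_mul_distrib]
    refine Finset.prod_congr rfl fun i _ => ?_
    rw [mul_pow, Polynomial.C_pow]
  rw [h1, Polynomial.algebraMap_eq, ← mul_assoc, ← Polynomial.C_mul, Polynomial.coeff_C_mul,
    Polynomial.coeff_X_pow, eval_monomial, Finsupp.prod_fintype _ _ fun i => pow_zero _]
  by_cases h : d.degree = l
  · rw [if_pos h, if_pos h.symm, mul_one]
  · rw [if_neg h, if_neg fun h' => h h'.symm, mul_zero]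

theorem dirLE_of_mono {N κ t : ℕ} {g : (ℕ → F) → F} {x : ℕ → F} {e : Fin t → ℕ}
    (he : Function.Injective e) (heN : ∀ j, e j < N) (P : MvPolynomial (Fin t) F)
    (hP : ∀ y : Fin t → F, g (fun i => x i + ∑ j, if e j = i then y j else 0) = eval y P)
    {α : Fin t →₀ ℕ} (hα : α ∈ P.support) (hκ : ∑ j, α j ≤ κ) : DirLE N κ g x := by
  have hne : homogeneousComponent α.degree P ≠ 0 := by
    intro h
    have h1 : coeff α (homogeneousComponent α.degree P) = coeff α P := by
      rw [coeff_homogeneousComponent, if_pos rfl]
    rw [h, coeff_zero] at h1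
    exact (mem_support_iff.1 hα) h1.symm
  obtain ⟨y, hy⟩ : ∃ y, eval y (homogeneousComponent α.degree P) ≠ 0 := by
    by_contra hcon
    push Not at hcon
    exact hne (MvPolynomial.funext fun y => by rw [hcon y, map_zero])
  refine ⟨fun i => ∑ j, if e j = i then y j else 0,
    aeval (fun j => Polynomial.C (y j) * Polynomial.X) P, ?_, ?_, α.degree, ?_, ?_⟩
  · intro i hi
    refine Finset.sum_eq_zero fun j _ => ?_
    rw [if_neg]
    intro h
    have := heN j
    omega
  · intro s
    have h1 : (fun i => x i + s * ∑ j, if e j = i then y j else 0) =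
        fun i => x i + ∑ j, if e j = i then s * y j else 0 := by
      funext i
      rw [Finset.mul_sum]
      congr 1
      refine Finset.sum_congr rfl fun j _ => ?_
      rw [mul_ite, mul_zero]
    rw [h1, hP fun j => s * y j]
    have h2 := AlgHom.congr_fun (comp_aeval (fun j => Polynomial.C (y j) * Polynomial.X)
      (Polynomial.aeval s : Polynomial F →ₐ[F] F)) P
    rw [AlgHom.comp_apply] at h2
    rw [← Polynomial.coe_aeval_eq_eval]
    refine Eq.trans ?_ h2.symm
    rw [← coe_aeval_eq_eval]
    have h3 : (fun j => s * y j) =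
        fun j => (Polynomial.aeval s) (Polynomial.C (y j) * Polynomial.X : Polynomial F) := by
      funext j
      rw [map_mul, Polynomial.aeval_C, Polynomial.aeval_X, Algebra.algebraMap_self_apply, mul_comm]
    rw [h3]
    rfl
  · rw [Finsupp.degree_eq_sum]
    exact hκ
  · rw [coeff_scaled]
    exact hy

end ORB
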