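import Pool.Agent.Helper88.ORB.Defs
import Pool.Agent.Helper88.LR.Curve

/-!
# ORB-13: the family of points

* `ncv_natDegree`, `ncv_eval`, `ncv_point`: from `LRH.curve_natDegree`, `LRH.curve_eval`, `LRH.curve_point`, `JB.length_enum` (`Polynomial.eval_intCast_map`; the factor `H.card !` is cancelled).
* `joined_fam`: `Joined (fam n K H)`: the parameters `(z, w, ζ, t)` are joined by a straight line; the coordinates are polynomials (as in `joined_lvl`, `map_G`; `(ncv H l).comp (C t + X * C (t' - t))` for the second term).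
* `lvl_fam`: `ζ = 0`, `t = 0`. `base_fam`: `β ∈ lvl n 1`: use one block of `z, w` for `β` and `0` for the others (`lvl_mono`), `ζ`, and `t` with `(ncv H l).eval t = y l` (`ncv_point`).
* `fam_prod`: for `g` in the submonoid closure of polynomials which are nonzero somewhere on the family (or zero): if `g ≠ 0` it is nonzero somewhere: `Submonoid.closure_induction`; `1` is nonzero at any point;
`Joined.mul` for products (both factors nonzero, `IsPoly`: `⟨g, fun _ => rfl⟩`).
-/

set_option autoImplicit false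

namespace ORB

open MvPolynomial
open Pool.Agent.Helper4.RO (Joined IsPoly lvl)
open Pool.Agent.Helper28.D4 (G)

theorem ncv_natDegree {n : ℕ} (H : Finset (Fin n → ℤ)) (l : Fin n) :
    (ncv H l).natDegree ≤ H.card := by
  unfold ncv
  refine (Polynomial.natDegree_C_mul_le _ _).trans ?_
  refine Polynomial.natDegree_map_le.trans ?_
  rw [← JB.length_enum H]
  exact LRH.curve_natDegree _ _

theorem ncv_eval_nat {n : ℕ} (H : Finset (Fin n → ℤ)) (l : Fin n) (t : ℕ) :
    (ncv H l).eval (t : ℂ) = (H.card.factorial : ℂ)⁻¹ *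
      (((LRH.curve (JB.enum H) l).eval (t : ℤ) : ℤ) : ℂ) := by
  unfold ncv
  rw [Polynomial.eval_mul, Polynomial.eval_C]
  congr 1
  simp

theorem ncv_eval {n : ℕ} (H : Finset (Fin n → ℤ)) (l : Fin n) (t : ℕ) :
    (ncv H l).eval (t : ℂ) = ((JB.newt (JB.enum H) t l : ℤ) : ℂ) := by
  rw [ncv_eval_nat, LRH.curve_eval, JB.length_enum]
  have h : (H.card.factorial : ℂ) ≠ 0 := by exact_mod_cast Nat.factorial_ne_zero _
  push_cast
  rw [← mul_assoc, inv_mul_cancel₀ h, one_mul]

theorem ncv_point {n : ℕ} {H : Finset (Fin n → ℤ)} {y : Fin n → ℤ} (hy : y ∈ H) :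
    ∃ t : ℕ, ∀ l, (ncv H l).eval (t : ℂ) = (y l : ℂ) := by
  obtain ⟨t, ht⟩ := LRH.curve_point hy
  refine ⟨t, fun l => ?_⟩
  have h : (H.card.factorial : ℂ) ≠ 0 := by exact_mod_cast Nat.factorial_ne_zero _
  rw [ncv_eval_nat, ht l]
  push_cast
  rw [← mul_assoc, inv_mul_cancel₀ h, one_mul]

theorem joined_fam (n K : ℕ) (H : Finset (Fin n → ℤ)) : Joined (fam n K H) := by
  rintro x ⟨z, w, ζ, t, hx⟩ y ⟨z', w', ζ', t', hy⟩
  have hev : ∀ (s : ℂ) (i : Fin n), Polynomial.eval s
      (G n K (fun j => Polynomial.C (z j) + Polynomial.X * Polynomial.C (z' j - z j))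
          (fun j => Polynomial.C (w j) + Polynomial.X * Polynomial.C (w' j - w j)) i) =
      G n K (fun j => z j + s * (z' j - z j)) (fun j => w j + s * (w' j - w j)) i := by
    intro s i
    have h := Pool.Agent.Helper28.D4.map_G (Polynomial.evalRingHom s)
      (fun j => Polynomial.C (z j) + Polynomial.X * Polynomial.C (z' j - z j))
      (fun j => Polynomial.C (w j) + Polynomial.X * Polynomial.C (w' j - w j)) i
    simp only [Polynomial.coe_evalRingHom, Polynomial.eval_add, Polynomial.eval_mul,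
      Polynomial.eval_C, Polynomial.eval_X] at h
    exact h
  have hev2 : ∀ (s : ℂ) (l : Fin n), Polynomial.eval s
      ((Polynomial.C ζ + Polynomial.X * Polynomial.C (ζ' - ζ)) *
        (ncv H l).comp (Polynomial.C t + Polynomial.X * Polynomial.C (t' - t))) =
      (ζ + s * (ζ' - ζ)) * (ncv H l).eval (t + s * (t' - t)) := by
    intro s l
    rw [Polynomial.eval_mul, Polynomial.eval_comp]
    simp only [Polynomial.eval_add, Polynomial.eval_mul, Polynomial.eval_C, Polynomial.eval_X]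
  refine ⟨fun i => G n K (fun j => Polynomial.C (z j) + Polynomial.X * Polynomial.C (z' j - z j))
          (fun j => Polynomial.C (w j) + Polynomial.X * Polynomial.C (w' j - w j)) i +
      (Polynomial.C ζ + Polynomial.X * Polynomial.C (ζ' - ζ)) *
        (ncv H i).comp (Polynomial.C t + Polynomial.X * Polynomial.C (t' - t)), ?_, ?_, ?_⟩
  · intro i
    dsimp only
    rw [Polynomial.eval_add, hev, hev2, hx]
    simp only [zero_mul, add_zero]
  · intro i
    dsimp only
    rw [Polynomial.eval_add, hev, hev2, hy]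
    simp only [one_mul, add_sub_cancel]
  · intro s
    refine ⟨fun j => z j + s * (z' j - z j), fun j => w j + s * (w' j - w j), ζ + s * (ζ' - ζ),
      t + s * (t' - t), ?_⟩
    intro l
    dsimp only
    rw [Polynomial.eval_add, hev, hev2]

theorem lvl_fam {n K : ℕ} (H : Finset (Fin n → ℤ)) {x : ℕ → ℂ} (hx : x ∈ lvl n K) :
    (fun i : Fin n => x i) ∈ fam n K H := by
  obtain ⟨z, w, h⟩ := hx
  refine ⟨z, w, 0, 0, fun l => ?_⟩
  rw [zero_mul, add_zero]
  exact h l

theorem base_fam {n K : ℕ} (hK : 1 ≤ K) (H : Finset (Fin n → ℤ)) {x : ℕ → ℂ}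
    (hx : x ∈ lvl n 1) {y : Fin n → ℤ} (hy : y ∈ H) (ζ : ℂ) :
    (fun i : Fin n => x i + ζ * (y i : ℂ)) ∈ fam n K H := by
  obtain ⟨z, w, h⟩ := Pool.Agent.Helper4.RO.lvl_mono hK hx
  obtain ⟨t, ht⟩ := ncv_point hy
  refine ⟨z, w, ζ, t, fun l => ?_⟩
  rw [ht l, ← h l]

theorem fam_prod {n K : ℕ} (H : Finset (Fin n → ℤ)) (A : Set (MvPolynomial (Fin n) ℂ))
    (hA : ∀ f ∈ A, f ≠ 0 → ∃ x ∈ fam n K H, eval x f ≠ 0) {g : MvPolynomial (Fin n) ℂ}
    (hg : g ∈ Submonoid.closure A) (h0 : g ≠ 0) : ∃ x ∈ fam n K H, eval x g ≠ 0 := by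
  induction hg using Submonoid.closure_induction with
  | mem f hf => exact hA f hf h0
  | one =>
    refine ⟨fun l => G n K 0 0 l + 0 * (ncv H l).eval 0, ⟨0, 0, 0, 0, fun l => rfl⟩, ?_⟩
    rw [map_one]
    exact one_ne_zero
  | mul f g _ _ hf hg =>
    have hf0 : f ≠ 0 := left_ne_zero_of_mul h0
    have hg0 : g ≠ 0 := right_ne_zero_of_mul h0
    obtain ⟨x, hx, hxx⟩ := (joined_fam n K H).mul (f := fun x => eval x f) (g := fun x => eval x g)
      ⟨f, fun _ => rfl⟩ ⟨g, fun _ => rfl⟩ (hf hf0) (hg hg0)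
    exact ⟨x, hx, by rw [map_mul]; exact hxx⟩

end ORB
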