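import Pool.Agent.Helper88.ORB.Levels
import Pool.Agent.Helper53.JB.Ord

/-!
# ORB-09: affine substitutions

* `eval_frm`: `eval x (aeval (frm L b) F) = eval (fun i => eval x (frm L b i)) F` (two ring homomorphisms agreeing on constants and variables) and `eval x (frm L b i) = ∑ j, L i j * x j + b i`.
* `frm_ne_zero`: `exists_rinv` gives `R`, `L R = 1`: for every `y` the point `x = R (y - b)` has `eval x (frm L b i) = y i`; so if `aeval (frm L b) g = 0` then `eval y g = 0` for all `y`, `g = 0`.
* `tc_frm`: both sides at `y` (`MvPolynomial.funext`, `JB.eval_tc`): `(lin β y (aeval (frm L b) F)).coeff l` and `(lin (φ β) (L y) F).coeff l` with `φ β i = eval β (frm L b i)`, `(L y) i = eval y (frm L 0 i) = ∑ j, L i j * y j`;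
the two polynomials are equal: `lin β y` composed with `aeval (frm L b)` and `lin (φ β) (L y)` are algebra homomorphisms with the same value `C (φ β i) + X * C ((L y) i)` at `X i`.
* `rankLe_frm`: `eval (x + y) (aeval (frm L 0) g) = eval (L x + L y) g = ∑ k, eval (L x) (A k) * eval (L y) (B k)`; take `aeval (frm L 0) (A k)`, `aeval (frm L 0) (B k)`.
* `pderiv_frm`: chain rule, `pderiv j (aeval (frm L b) F) = ∑ i, C (L i j) * aeval (frm L b) (pderiv i F)`: `MvPolynomial.induction_on`, or `JB.pderiv_aeval` (`Helper61/JB/Dep.lean`).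
-/

set_option autoImplicit false

namespace ORB

open MvPolynomial JB
open Pool.Agent.Helper7.PD (RankLe)

variable {m n : ℕ} (L : Matrix (Fin m) (Fin n) ℂ) (b : Fin m → ℂ)

theorem eval_frm_apply (x : Fin n → ℂ) (i : Fin m) :
    eval x (frm L b i) = ∑ j, L i j * x j + b i := by
  simp only [frm, map_add, map_sum, map_mul, eval_C, eval_X]

theorem eval_frm (x : Fin n → ℂ) (F : MvPolynomial (Fin m) ℂ) :
    eval x (aeval (frm L b) F) = eval (fun i => eval x (frm L b i)) F := by
  have h : (eval x).comp (aeval (frm L b) :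
      MvPolynomial (Fin m) ℂ →ₐ[ℂ] MvPolynomial (Fin n) ℂ).toRingHom =
      eval (fun i => eval x (frm L b i)) := by
    apply MvPolynomial.ringHom_ext
    · intro c
      simp [MvPolynomial.algebraMap_eq]
    · intro i
      simp
  exact congrArg (fun φ => φ F) h

theorem frm_ne_zero (hL : LinearIndependent ℂ fun i => L i) {g : MvPolynomial (Fin m) ℂ}
    (h : g ≠ 0) : aeval (frm L b) g ≠ 0 := by
  intro h0
  apply h
  obtain ⟨R, hR⟩ := exists_rinv L hL
  apply MvPolynomial.funext
  intro y
  have h1 := eval_frm L b (R.mulVec (y - b)) g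
  rw [h0, map_zero] at h1
  have h2 : (fun i => eval (R.mulVec (y - b)) (frm L b i)) = y := by
    funext i
    rw [eval_frm_apply]
    have h3 : ∑ j, L i j * (R.mulVec (y - b)) j = (L.mulVec (R.mulVec (y - b))) i := rfl
    rw [h3, Matrix.mulVec_mulVec, hR, Matrix.one_mulVec, Pi.sub_apply, sub_add_cancel]
  rw [h2] at h1
  rw [← h1, map_zero]

theorem tc_frm (F : MvPolynomial (Fin m) ℂ) (β : Fin n → ℂ) (l : ℕ) :
    tc β l (aeval (frm L b) F) =
      aeval (frm L 0) (tc (fun i => eval β (frm L b i)) l F) := by
  apply MvPolynomial.funext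
  intro y
  rw [eval_tc, eval_frm, eval_tc]
  have h : (lin β y : MvPolynomial (Fin n) ℂ →+* Polynomial ℂ).comp (aeval (frm L b) :
      MvPolynomial (Fin m) ℂ →ₐ[ℂ] MvPolynomial (Fin n) ℂ).toRingHom =
      (lin (fun i => eval β (frm L b i)) (fun i => eval y (frm L 0 i)) :
        MvPolynomial (Fin m) ℂ →+* Polynomial ℂ) := by
    apply MvPolynomial.ringHom_ext
    · intro c
      simp [lin, MvPolynomial.algebraMap_eq]
    · intro i
      have h1 : (lin β y) (frm L b i) = Polynomial.C (eval β (frm L b i)) +
          Polynomial.X * Polynomial.C (eval y (frm L 0 i)) := by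
        rw [eval_frm_apply, eval_frm_apply, frm]
        simp only [map_add, map_sum, map_mul, lin_C, lin_X, Pi.zero_apply, map_zero, add_zero,
          Finset.mul_sum, mul_add, Finset.sum_add_distrib]
        have h2 : ∑ j, Polynomial.C (L i j) * (Polynomial.X * Polynomial.C (y j)) =
            ∑ j, Polynomial.X * (Polynomial.C (L i j) * Polynomial.C (y j)) :=
          Finset.sum_congr rfl fun j _ => by ring
        rw [h2]
        ring
      have h3 : (lin (fun i => eval β (frm L b i)) (fun i => eval y (frm L 0 i))) (X i) =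
          Polynomial.C (eval β (frm L b i)) +
            Polynomial.X * Polynomial.C (eval y (frm L 0 i)) := lin_X _ _ i
      change (lin β y) (aeval (frm L b) (X i)) =
        (lin (fun i => eval β (frm L b i)) (fun i => eval y (frm L 0 i))) (X i)
      rw [aeval_X, h1, h3]
  have h4 : (lin β y) (aeval (frm L b) F) =
      (lin (fun i => eval β (frm L b i)) (fun i => eval y (frm L 0 i))) F :=
    congrArg (fun φ => φ F) h
  rw [h4]

theorem rankLe_frm {s : ℕ} {g : MvPolynomial (Fin m) ℂ} (h : RankLe s g) :
    RankLe s (aeval (frm L 0) g) := by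
  obtain ⟨A, B, hAB⟩ := h
  refine ⟨fun k => aeval (frm L 0) (A k), fun k => aeval (frm L 0) (B k), fun x y => ?_⟩
  rw [eval_frm]
  have h1 : (fun i => eval (x + y) (frm L 0 i)) =
      (fun i => eval x (frm L 0 i)) + (fun i => eval y (frm L 0 i)) := by
    funext i
    rw [Pi.add_apply, eval_frm_apply, eval_frm_apply, eval_frm_apply]
    simp only [Pi.add_apply, Pi.zero_apply, add_zero, mul_add, Finset.sum_add_distrib]
  rw [h1, hAB]
  refine Finset.sum_congr rfl fun k _ => ?_
  rw [eval_frm, eval_frm]

theorem pderiv_frm (F : MvPolynomial (Fin m) ℂ) (j : Fin n) :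
    pderiv j (aeval (frm L b) F) = ∑ i, C (L i j) * aeval (frm L b) (pderiv i F) := by
  classical
  rw [JB.pderiv_aeval]
  refine Finset.sum_congr rfl fun i _ => ?_
  have h1 : pderiv j (frm L b i) = C (L i j) := by
    rw [frm, map_add, map_sum, pderiv_C, add_zero, Finset.sum_eq_single j]
    · rw [pderiv_C_mul, pderiv_X_self, mul_one]
    · intro k _ hk
      rw [pderiv_C_mul, pderiv_X_of_ne hk, mul_zero]
    · intro hj
      exact absurd (Finset.mem_univ j) hj
  rw [h1, mul_comm]

end ORB
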