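import Pool.Agent.Helper88.ORB.Family

/-!
# ORB-19: the grid

* `fam_grid`: `f` nonzero somewhere on the family, `f.totalDegree ≤ d`, `b = d * (H.card + n)`. Let `σ = (Fin K ⊕ Fin K) ⊕ Fin 2` be the parameters, `x_l = G n K z w l + ζ * (ncv H l)(t)` as elements of
`MvPolynomial σ ℂ`, and `p = aeval x f ≠ 0`. The degree of `x_l` in each parameter is at most `max 1 n, H.card` `≤ H.card + n` (`n ≥ 1` if there is an `l`), so `degreeOf σ p ≤ d * (H.card + n) = b`
(`degreeOf` of a product/sum: every monomial of `f` has degree `≤ d`). `MvPolynomial.eq_zero_of_eval_zero_at_prod_finset` (or `exists_pts`/`nat_pt`, which do the same for one curve; the grid `{0..b}` has `b + 1 > b` points) gives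
natural numbers `≤ b` with `p ≠ 0`. (If `n = 0` everything is constant.)
-/

set_option autoImplicit false

namespace ORB

open MvPolynomial
open Pool.Agent.Helper28.D4 (G)

theorem fam_grid {n K d : ℕ} (H : Finset (Fin n → ℤ)) {f : MvPolynomial (Fin n) ℂ}
    (hd : f.totalDegree ≤ d) (h : ∃ x ∈ fam n K H, eval x f ≠ 0) :
    ∃ (z w : Fin K → Fin (d * (H.card + n) + 1)) (ζ t : Fin (d * (H.card + n) + 1)),
      eval (fun l => ((G n K (fun j => ((z j : ℕ) : ℤ)) (fun j => ((w j : ℕ) : ℤ)) l +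
        ((ζ : ℕ) : ℤ) * JB.newt (JB.enum H) (t : ℕ) l : ℤ) : ℂ)) f ≠ 0 := by
  classical
  obtain ⟨x₀, ⟨z, w, ζ, t, hx₀⟩, hne⟩ := h
  let φ : Fin n → MvPolynomial ((Fin K ⊕ Fin K) ⊕ Fin 2) ℂ := fun l =>
    G n K (fun j => (X (Sum.inl (Sum.inl j)) : MvPolynomial ((Fin K ⊕ Fin K) ⊕ Fin 2) ℂ))
      (fun j => X (Sum.inl (Sum.inr j))) l +
      X (Sum.inr 0) * Polynomial.aeval (X (Sum.inr 1)) (ncv H l)
  have hφ : ∀ (π : (Fin K ⊕ Fin K) ⊕ Fin 2 → ℂ) (l : Fin n), eval π (φ l) =
      G n K (fun j => π (Sum.inl (Sum.inl j))) (fun j => π (Sum.inl (Sum.inr j))) l +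
        π (Sum.inr 0) * (ncv H l).eval (π (Sum.inr 1)) := by
    intro π l
    have h1 : eval π (Polynomial.aeval (X (Sum.inr 1)) (ncv H l)) =
        (ncv H l).eval (π (Sum.inr 1)) := by
      rw [Polynomial.aeval_def, Polynomial.hom_eval₂, eval_X]
      have h2 : (eval π).comp (algebraMap ℂ (MvPolynomial ((Fin K ⊕ Fin K) ⊕ Fin 2) ℂ)) =
          RingHom.id ℂ := by
        ext a
        simp
      rw [h2, Polynomial.eval₂_id]
    have h3 := Pool.Agent.Helper28.D4.map_G (eval π) (n := n)
      (fun j => (X (Sum.inl (Sum.inl j)) : MvPolynomial ((Fin K ⊕ Fin K) ⊕ Fin 2) ℂ))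
      (fun j => X (Sum.inl (Sum.inr j))) l
    simp only [eval_X] at h3
    show eval π (_ + _ * _) = _
    rw [map_add, map_mul, eval_X, h1, h3]
  have hev : ∀ π : (Fin K ⊕ Fin K) ⊕ Fin 2 → ℂ, eval π (aeval φ f) =
      eval (fun l => G n K (fun j => π (Sum.inl (Sum.inl j)))
        (fun j => π (Sum.inl (Sum.inr j))) l +
        π (Sum.inr 0) * (ncv H l).eval (π (Sum.inr 1))) f := by
    intro π
    rw [Pool.Agent.Helper28.D4.eval_aeval_comp]
    congr 2
    funext l
    exact hφ π l
  have hF0 : aeval φ f ≠ 0 := by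
    intro hcon
    apply hne
    have h1 := hev (Sum.elim (Sum.elim z w) ![ζ, t])
    rw [hcon, map_zero] at h1
    have h2 : x₀ = fun l => G n K z w l + ζ * (ncv H l).eval t := funext hx₀
    rw [h2]
    exact h1.symm
  by_contra hcon
  push Not at hcon
  apply hF0
  apply MvPolynomial.eq_zero_of_eval_zero_at_prod_finset (aeval φ f)
    (fun _ => (Finset.range (d * (H.card + n) + 1)).image (fun k : ℕ => (k : ℂ)))
  · intro v
    rw [Finset.card_image_of_injective _ Nat.cast_injective, Finset.card_range]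
    have h1 := Pool.Agent.Helper28.D4.degreeOf_aeval_le φ v (H.card + n) d (by
        intro l
        have hn : 1 ≤ n := l.pos
        show degreeOf v (_ + _ * _) ≤ _
        refine (degreeOf_add_le v _ _).trans (max_le ?_ ?_)
        · exact (Pool.Agent.Helper28.D4.degreeOf_G n K _ _ v l).trans (Nat.le_add_left n _)
        · refine (degreeOf_mul_le v _ _).trans ?_
          have h5 : degreeOf v (Polynomial.aeval
              (X (Sum.inr 1) : MvPolynomial ((Fin K ⊕ Fin K) ⊕ Fin 2) ℂ) (ncv H l)) ≤ H.card := by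
            rw [Polynomial.aeval_eq_sum_range]
            refine (degreeOf_sum_le v _ _).trans (Finset.sup_le fun i hi => ?_)
            have hi' : i ≤ H.card :=
              (Nat.lt_succ_iff.1 (Finset.mem_range.1 hi)).trans (ncv_natDegree H l)
            rw [MvPolynomial.smul_eq_C_mul]
            refine (degreeOf_mul_le v _ _).trans ?_
            rw [degreeOf_C, zero_add]
            refine (degreeOf_pow_le v _ _).trans ?_
            refine (Nat.mul_le_mul_left i
              (Pool.Agent.Helper28.D4.degreeOf_X_le v (Sum.inr 1))).trans ?_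
            omega
          have h6 := Pool.Agent.Helper28.D4.degreeOf_X_le v
            (Sum.inr 0 : (Fin K ⊕ Fin K) ⊕ Fin 2)
          omega) f hd
    omega
  · intro x hx
    have h1 : ∀ p, ∃ k : Fin (d * (H.card + n) + 1),
        (((k : Fin (d * (H.card + n) + 1)) : ℕ) : ℂ) = x p := by
      intro p
      obtain ⟨k, hk, hkx⟩ := Finset.mem_image.1 (hx p)
      exact ⟨⟨k, Finset.mem_range.1 hk⟩, hkx⟩
    choose c hc using h1
    rw [hev]
    rw [← hcon (fun j => c (Sum.inl (Sum.inl j))) (fun j => c (Sum.inl (Sum.inr j)))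
      (c (Sum.inr 0)) (c (Sum.inr 1))]
    congr 2
    funext l
    rw [Int.cast_add, Int.cast_mul, ← ncv_eval, hc]
    have h3 := Pool.Agent.Helper28.D4.map_G (Int.castRingHom ℂ) (n := n)
      (fun j => ((c (Sum.inl (Sum.inl j)) : ℕ) : ℤ))
      (fun j => ((c (Sum.inl (Sum.inr j)) : ℕ) : ℤ)) l
    simp only [eq_intCast, Int.cast_natCast] at h3
    rw [h3]
    simp only [hc, Int.cast_natCast]

end ORB
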