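import Pool.Agent.Helper88.ORB.Dir

/-!
# ORB-06: the levels in unknown coordinates

* `isOL_of_isLevels`: `mono` from `IsLevels.mono`/`modif` with `s = ∅`; `taylor`: `exists_modif` and `hS.modif`.
* `exists_rinv`: rows independent => the rank is `m` (`LinearIndependent.rank_matrix`) => `mulVec` is surjective => right inverse (`Matrix.mulVec_surjective_iff_exists_right_inverse` or any other way).
* `isOL_pull`. `joined`: `y, y'` from `x, x' ∈ S k`, the curve `Z` from `x` to `x'` in `S k`; new curve: `∑ j, C (L i j) * Z j + C (b i)` for `i < m`, `C (y i) + X * C (y' i - y i)` for `i ≥ m`. `mono`: clear.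
`nonempty₀`: from a point of `S 0`. `const`: `i < m`; `L i ≠ 0` (`LinearIndependent.ne_zero`), `L i j ≠ 0`; the point `x = Function.update 0 j c'` with `L i j * c' + b i = c` is in `S 0` (`hone`); `y i' = ∑ L i' j x j + b i'` for
`i' < m`, `0` otherwise.
`taylor`: `y ∈ pull L b (S k)` from `x ∈ S k`; `DirLE m κ g y` with `u, q, j`. `R` with `L * R = 1`, `u' = R u` (`u' j = ∑ i : Fin m, R j i * u i` for `j < n`, `0` for `j ≥ n`), so `∑ j, L i j * u' j = u i` for `i < m`. Let
`g' x' = g (fun i => if i < m then ∑ j, L i j * x' j + b i else y i)`; `IsPoly g'` (`bind₁` of the polynomial of `g`). `g' (x + t u') = g (y + t u)` (coordinates `≥ m` of `u` are zero), so `DirLE n κ g' x`. `hS.taylor`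
gives `x' ∈ S (k + κ)` with `g' x' ≠ 0`, and the point `fun i => if i < m then .. else y i` is in `pull L b (S (k + κ))`.
* `isOL_lvl`: `isLevels_lvl n` (`Helper4/RO/Final.lean`).
* `one_mem_lvl`: `Function.update (fun _ => 0) j c ∈ lvl n 1` for `j < n` (`lvl_one`, `zero_mem_lvl`).
-/

set_option autoImplicit false

namespace ORB

open Pool.Agent.Helper4.RO (IsLevels lvl)

section

variable {F : Type*} [Field F]

theorem isOL_of_isLevels [Infinite F] {N : ℕ} {S : ℕ → Set (ℕ → F)} (hS : IsLevels N S) :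
    IsOL N S where
  joined := hS.joined
  mono k _ hx := hS.mono (Nat.le_succ k) hx
  nonempty₀ := hS.nonempty₀
  const := hS.const
  taylor k κ g x hg hx hd := by
    obtain ⟨s, hsN, hsc, x', hx', hgx'⟩ := exists_modif hg hd
    exact ⟨x', hS.modif k κ x hx s hsN hsc x' hx', hgx'⟩

theorem exists_rinv {m n : ℕ} (L : Matrix (Fin m) (Fin n) F)
    (hL : LinearIndependent F fun i => L i) : ∃ R : Matrix (Fin n) (Fin m) F, L * R = 1 := by
  rw [← Matrix.mulVec_surjective_iff_exists_right_inverse]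
  have h1 : L.rank = m := by
    have h2 : LinearIndependent F L.row := hL
    have h3 := h2.rank_matrix
    rwa [Fintype.card_fin] at h3
  have h2 : LinearMap.range L.mulVecLin = ⊤ := by
    apply Submodule.eq_top_of_finrank_eq
    rw [Module.finrank_fin_fun]
    exact h1
  intro y
  have h3 : y ∈ LinearMap.range L.mulVecLin := by
    rw [h2]
    exact Submodule.mem_top
  obtain ⟨x, hx⟩ := h3
  exact ⟨x, hx⟩

theorem isOL_pull {m n : ℕ} (L : Matrix (Fin m) (Fin n) F) (b : Fin m → F)
    (hL : LinearIndependent F fun i => L i) {S : ℕ → Set (ℕ → F)} (hS : IsOL n S)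
    (hone : ∀ j < n, ∀ c : F, Function.update (fun _ => 0) j c ∈ S 0) :
    IsOL m fun k => pull L b (S k) := by
  refine ⟨?_, ?_, ?_, ?_, ?_⟩
  · rintro k y ⟨x, hx, hxy⟩ y' ⟨x', hx', hxy'⟩
    obtain ⟨Z, h0, h1, hZ⟩ := hS.joined k x hx x' hx'
    refine ⟨fun i => if h : i < m then
        ∑ j : Fin n, Polynomial.C (L ⟨i, h⟩ j) * Z j + Polynomial.C (b ⟨i, h⟩)
      else Polynomial.C (y i) + Polynomial.X * Polynomial.C (y' i - y i), ?_, ?_, ?_⟩
    · intro i
      dsimp only
      split_ifs with h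
      · rw [hxy ⟨i, h⟩, Polynomial.eval_add, Polynomial.eval_finsetSum, Polynomial.eval_C]
        congr 1
        refine Finset.sum_congr rfl fun j _ => ?_
        rw [Polynomial.eval_mul, Polynomial.eval_C, h0]
      · simp
    · intro i
      dsimp only
      split_ifs with h
      · rw [hxy' ⟨i, h⟩, Polynomial.eval_add, Polynomial.eval_finsetSum, Polynomial.eval_C]
        congr 1
        refine Finset.sum_congr rfl fun j _ => ?_
        rw [Polynomial.eval_mul, Polynomial.eval_C, h1]
      · simp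
    · intro s
      refine ⟨fun i => (Z i).eval s, hZ s, fun i => ?_⟩
      dsimp only
      rw [dif_pos i.2, Polynomial.eval_add, Polynomial.eval_finsetSum, Polynomial.eval_C]
      congr 1
      refine Finset.sum_congr rfl fun j _ => ?_
      rw [Polynomial.eval_mul, Polynomial.eval_C]
  · rintro k y ⟨x, hx, hxy⟩
    exact ⟨x, hS.mono k hx, hxy⟩
  · obtain ⟨x, hx⟩ := hS.nonempty₀
    refine ⟨fun i => if h : i < m then ∑ j : Fin n, L ⟨i, h⟩ j * x j + b ⟨i, h⟩ else 0,
      x, hx, fun i => ?_⟩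
    dsimp only
    rw [dif_pos i.2]
  · intro i hi c
    have h1 : L ⟨i, hi⟩ ≠ 0 := hL.ne_zero ⟨i, hi⟩
    obtain ⟨j, hj⟩ : ∃ j, L ⟨i, hi⟩ j ≠ 0 := by
      by_contra hcon
      push Not at hcon
      exact h1 (funext hcon)
    have hx := hone j j.2 ((c - b ⟨i, hi⟩) / L ⟨i, hi⟩ j)
    refine ⟨fun i' => if h : i' < m then ∑ j' : Fin n, L ⟨i', h⟩ j' *
      Function.update (fun _ => 0 : ℕ → F) j ((c - b ⟨i, hi⟩) / L ⟨i, hi⟩ j) j' + b ⟨i', h⟩
      else 0, ⟨_, hx, fun i' => ?_⟩, ?_⟩
    · dsimp only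
      rw [dif_pos i'.2]
    · dsimp only
      rw [dif_pos hi, Finset.sum_eq_single j]
      · rw [Function.update_self, mul_div_cancel₀ _ hj]
        ring
      · intro j' _ hne
        rw [Function.update_of_ne (fun h => hne (Fin.ext h)), mul_zero]
      · intro h
        exact absurd (Finset.mem_univ j) h
  · rintro k κ g y hg ⟨x, hx, hxy⟩ ⟨u, q, hu, hq, j, hj, hqj⟩
    obtain ⟨R, hR⟩ := exists_rinv L hL
    obtain ⟨u', hu'⟩ : ∃ u' : ℕ → F, u' = fun j => if h : j < n then
      ∑ i : Fin m, R ⟨j, h⟩ i * u i else 0 := ⟨_, rfl⟩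
    have hLu : ∀ i : Fin m, ∑ j : Fin n, L i j * u' j = u i := by
      intro i
      have e1 : ∑ j : Fin n, L i j * u' j = ∑ i' : Fin m, (L * R) i i' * u i' := by
        have e2 : ∀ j : Fin n, L i j * u' j = ∑ i' : Fin m, L i j * R j i' * u i' := by
          intro j
          rw [hu']
          dsimp only
          rw [dif_pos j.2, Finset.mul_sum]
          exact Finset.sum_congr rfl fun i' _ => by ring
        rw [Finset.sum_congr rfl fun j _ => e2 j, Finset.sum_comm]
        refine Finset.sum_congr rfl fun i' _ => ?_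
        rw [Matrix.mul_apply, Finset.sum_mul]
      rw [e1, hR, Finset.sum_eq_single i]
      · rw [Matrix.one_apply_eq, one_mul]
      · intro i' _ hne
        rw [Matrix.one_apply_ne hne.symm, zero_mul]
      · intro h
        exact absurd (Finset.mem_univ i) h
    obtain ⟨φ, hφ⟩ : ∃ φ : (ℕ → F) → ℕ → F, φ = fun x' i => if h : i < m then
      ∑ j : Fin n, L ⟨i, h⟩ j * x' j + b ⟨i, h⟩ else y i := ⟨_, rfl⟩
    have hpoly : Pool.Agent.Helper4.RO.IsPoly fun x' => g (φ x') := by
      obtain ⟨p, hp⟩ := hg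
      refine ⟨MvPolynomial.bind₁ (fun i => if h : i < m then
        ∑ j : Fin n, MvPolynomial.C (L ⟨i, h⟩ j) * MvPolynomial.X (j : ℕ) +
          MvPolynomial.C (b ⟨i, h⟩) else MvPolynomial.C (y i)) p, fun x' => ?_⟩
      change g (φ x') = _
      rw [hp (φ x'), ← MvPolynomial.coe_aeval_eq_eval, ← MvPolynomial.coe_aeval_eq_eval]
      change _ = MvPolynomial.aeval x' (MvPolynomial.bind₁ _ p)
      rw [MvPolynomial.aeval_bind₁]
      change MvPolynomial.aeval (φ x') p = _
      congr 2
      funext i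
      rw [hφ]
      dsimp only
      split_ifs with h
      · simp
      · simp
    have hline : ∀ t : F, φ (fun i => x i + t * u' i) = fun i => y i + t * u i := by
      intro t
      rw [hφ]
      funext i
      dsimp only
      split_ifs with h
      · have e1 : ∑ j : Fin n, L ⟨i, h⟩ j * (x j + t * u' j) =
            ∑ j : Fin n, L ⟨i, h⟩ j * x j + t * ∑ j : Fin n, L ⟨i, h⟩ j * u' j := by
          rw [Finset.mul_sum, ← Finset.sum_add_distrib]
          exact Finset.sum_congr rfl fun j _ => by ring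
        rw [e1, hLu ⟨i, h⟩, hxy ⟨i, h⟩]
        ring
      · rw [hu i (not_lt.1 h), mul_zero, add_zero]
    obtain ⟨x', hx', hgx'⟩ := hS.taylor k κ (fun x' => g (φ x')) x hpoly hx
      ⟨u', q, fun i hi => by
        rw [hu']
        dsimp only
        rw [dif_neg (not_lt.2 hi)], fun t => by
        dsimp only
        rw [hline t]
        exact hq t, j, hj, hqj⟩
    refine ⟨φ x', ⟨x', hx', fun i => ?_⟩, hgx'⟩
    rw [hφ]
    dsimp only
    rw [dif_pos i.2]

end

theorem isOL_lvl (n : ℕ) : IsOL n fun k => lvl n (k + 1) :=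
  isOL_of_isLevels (Pool.Agent.Helper4.RO.isLevels_lvl n)

theorem one_mem_lvl {n j : ℕ} (hj : j < n) (c : ℂ) :
    Function.update (fun _ => 0 : ℕ → ℂ) j c ∈ lvl n 1 :=
  Pool.Agent.Helper4.RO.lvl_one (Pool.Agent.Helper4.RO.zero_mem_lvl n 0) hj
    fun _ hi => Function.update_of_ne hi _ _

end ORB
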