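import Pool.Agent.Helper88.ORB.Step
import Pool.Agent.Helper88.ORB.Levels

/-!
# ORB-08: programs in unknown coordinates are hit

* `ochain_hit`: copy `KR`, `KR_mono`, `KR_eq`, `KR_self`, `rhits_KR`, `rhits_lev`, `chain_hit` of `Helper4/RK/Hit.lean` with `trO`, `levO`, `IsOL`, `ohits_step`.
* `prog_hit`: `F` is the value of a chain `C` with `IsRd m k n' C.v` (`IsRK.exists_chain`); `S k' = pull L b (lvl n (k' + 1))` is `IsOL m` (`isOL_pull`, `isOL_lvl`, `one_mem_lvl`). `F ≠ 0`, so `C.val ≠ 0` at some point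
(`exists_eval_ne_zero`, as in `rk_hit`); `ochain_hit` gives `y ∈ pull L b (lvl n (levO k w + 1))`, `y i = ∑ j, L i j * x j + b i` (`i < m`), and `eval x (aeval (frm L b) F) = eval (fun i => y i) F` (`frm`; `aeval` composed with `eval`).
-/

set_option autoImplicit false

namespace ORB

open MvPolynomial
open Pool.Agent.Helper4.RO (Chain lvl)
open Pool.Agent.Helper4.RK (IsRd IsRK)

/-- The levels after `d` steps. -/
private def KO (k W : ℕ) : ℕ → ℕ
  | 0 => 0
  | d + 1 => KO k W d + trO k (W ^ (W - d))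

private theorem KO_eq (k W : ℕ) : ∀ d ≤ W, KO k W d = ∑ r ∈ Finset.range d, trO k (W ^ (W - r)) := by
  intro d
  induction d with
  | zero => intro _; rfl
  | succ d ih => intro hd; rw [KO, ih (by omega), Finset.sum_range_succ]

private theorem KO_self (k W : ℕ) : KO k W W = levO k W := by
  rw [KO_eq k W W le_rfl, levO, ← Finset.sum_range_reflect]
  refine Finset.sum_congr rfl fun r hr => ?_
  rw [Finset.mem_range] at hr
  congr 2
  omega

private theorem ohits_KO {F : Type*} [Field F] [CharZero F] {κ : Type*} [Fintype κ]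
    [DecidableEq κ] {N k : ℕ} {S : ℕ → Set (ℕ → F)} (hS : IsOL N S) :
    ∀ d ≤ Fintype.card κ, ∀ r, Fintype.card κ < r + d →
      Pool.Agent.Helper4.RK.RHits N k κ (S (KO k (Fintype.card κ) d)) r := by
  intro d
  induction d with
  | zero =>
    rintro - r hr n v M E E' hv ⟨x, hx⟩
    exfalso
    have h1 := Pool.Agent.Helper4.RO.le_rank_of_det_ne_zero _ _ _ hx
    have h2 := Matrix.rank_le_card_width (Pool.Agent.Helper4.RO.segx M v x 0 n)
    omega
  | succ d ih =>
    intro hd r hr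
    by_cases h : Fintype.card κ < r + d
    · intro n v M E E' hv hne
      obtain ⟨x, hx, h'⟩ := ih (by omega) r h n v M E E' hv hne
      exact ⟨x, hS.mono' (Nat.le_add_right _ _) hx, h'⟩
    · have hrd : Fintype.card κ - d = r := by omega
      rw [KO, hrd]
      exact ohits_step hS fun r' hr' => ih (by omega) r' (by omega)

private theorem ohits_lev {F : Type*} [Field F] [CharZero F] {κ : Type*} [Fintype κ]
    [DecidableEq κ] {N k : ℕ} {S : ℕ → Set (ℕ → F)} (hS : IsOL N S) (r : ℕ) :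
    Pool.Agent.Helper4.RK.RHits N k κ (S (levO k (Fintype.card κ))) r := by
  rcases Nat.eq_zero_or_pos r with rfl | hr
  · intro n v M E E' hv hne
    obtain ⟨x, hx⟩ := hS.nonempty₀
    refine ⟨x, hS.mono' (Nat.zero_le _) hx, ?_⟩
    rw [Matrix.det_isEmpty]
    exact one_ne_zero
  · rw [← KO_self]
    exact ohits_KO hS _ le_rfl r (by omega)

theorem ochain_hit {F : Type*} [Field F] [CharZero F] {κ : Type*} [Fintype κ] [DecidableEq κ]
    {N k n : ℕ} {S : ℕ → Set (ℕ → F)} (hS : IsOL N S) (C : Chain F κ) (hv : IsRd N k n C.v)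
    (hne : ∃ x, C.val n x ≠ 0) : ∃ x ∈ S (levO k (Fintype.card κ)), C.val n x ≠ 0 := by
  have hval : ∀ x, (Matrix.of (fun (_ : Fin 1) j => C.u j) *
      Pool.Agent.Helper4.RO.segx C.M C.v x 0 n *
      Matrix.of (fun j (_ : Fin 1) => C.w j)).det = C.val n x := by
    intro x
    rw [Matrix.det_fin_one, Matrix.mul_assoc, Matrix.mul_apply]
    rfl
  obtain ⟨x, hx⟩ := hne
  obtain ⟨y, hy, hy'⟩ := ohits_lev (κ := κ) (k := k) hS 1 n C.v C.M
    (Matrix.of (fun (_ : Fin 1) j => C.u j)) (Matrix.of (fun j (_ : Fin 1) => C.w j)) hv ⟨x, by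
      rw [hval]
      exact hx⟩
  rw [hval] at hy'
  exact ⟨y, hy, hy'⟩

theorem prog_hit {m n w k : ℕ} (L : Matrix (Fin m) (Fin n) ℂ) (b : Fin m → ℂ)
    (hL : LinearIndependent ℂ fun i => L i) {F : MvPolynomial (Fin m) ℂ} (hF : IsRK w k F)
    (h0 : F ≠ 0) :
    ∃ x ∈ lvl n (levO k w + 1), eval (fun i : Fin n => x i) (aeval (frm L b) F) ≠ 0 := by
  obtain ⟨m', C, hC1, hC2⟩ := hF.exists_chain
  obtain ⟨a, ha⟩ := Pool.Agent.Helper28.D4.exists_eval_ne_zero _ h0
  have hOL : IsOL m fun k => pull L b (lvl n (k + 1)) :=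
    isOL_pull L b hL (isOL_lvl n) fun j hj c => one_mem_lvl hj c
  obtain ⟨y, hy, hy'⟩ := ochain_hit hOL C hC1
    ⟨fun i => if h : i < m then a ⟨i, h⟩ else 0, by
      rw [hC2]
      simpa using ha⟩
  rw [hC2] at hy'
  rw [Fintype.card_fin] at hy
  obtain ⟨x, hx, hxy⟩ := hy
  refine ⟨x, hx, ?_⟩
  have h1 : eval (fun i : Fin n => x i) (aeval (frm L b) F) = eval (fun i : Fin m => y i) F := by
    have h2 : eval (fun i : Fin n => x i) (bind₁ (frm L b) F) =
        eval₂Hom (RingHom.id ℂ) (fun i => eval (fun i : Fin n => x i) (frm L b i)) F :=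
      eval₂Hom_bind₁ (RingHom.id ℂ) (fun i : Fin n => x i) (frm L b) F
    have h3 : (fun i => eval (fun i : Fin n => x i) (frm L b i)) = fun i : Fin m => y i := by
      funext i
      rw [hxy i]
      simp [frm, map_sum]
    rw [h3] at h2
    exact h2
  rw [h1]
  exact hy'

end ORB
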