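import Pool.Agent.Helper88.ORB.Defs
import Pool.Agent.Helper53.JB.Ord

/-!
# ORB-11: the order of a sparse polynomial at a point of the torus

(1) `rootMult_lt`: a nonzero univariate polynomial with `≤ s` terms over a field of characteristic zero has multiplicity `< s` at every `a ≠ 0`. Induction on `s`: `s = 0` impossible. Divide by `X ^ e`, `e` the smallest exponent
(`X` and `X - C a` are coprime: multiplicity unchanged, number of terms unchanged): `g = X ^ e * g₁`, `g₁(0) ≠ 0`. If `g₁' = 0`, `g₁` is a nonzero constant: multiplicity `0 < s`. Otherwise `g₁'` has `≤ s - 1` terms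
(the constant term is lost) and multiplicity `≥ mult g₁ - 1`, so `mult g₁ - 1 ≤ mult g₁' < s - 1`. (`Polynomial.derivative_rootMultiplicity_of_root`, or divisibility by powers of `X - C a`.) A statement with
`(X - C a) ^ s ∣ g → g = 0` (for `g.support.card ≤ s`) is enough and easier: `(X - C a)^s ∣ X^e g₁ ⇒ (X - C a)^s ∣ g₁ ⇒ (X - C a)^(s-1) ∣ g₁'` (`Polynomial.pow_sub_one_dvd_derivative_of_pow_dvd`) `⇒ g₁' = 0 ⇒ g₁ = C b`, and
`(X - C a)^s ∣ C b` with `s ≥ 1` gives `b = 0`.
(2) `exists_tc`: Let `F ≠ 0` have `≤ s` monomials, all `c i ≠ 0`. Choose `u : Fin m → ℕ` with `u · α` (`∑ i, u i * α i`) distinct for the `α ∈ supp F`: `u i = N ^ (i+1)` with `N` larger than all exponents (or any other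
argument: finitely many nonzero integer linear forms are all nonzero at some point of `ℕ^m`; Mathlib: `MvPolynomial`s are separated by Kronecker substitution). Put
`g = aeval (fun i => C (c i) * X ^ (u i)) F = ∑ α, coeff α F * ∏ (c i)^(α i) * X ^ (u · α) : Polynomial ℂ`: nonzero, `≤ s` terms. Suppose `tc c l F = 0` for all `l < s`. Let `W i : Polynomial ℂ` with `C (c i) * (1 + X)^(u i) = C (c i) + X * W i`.
As in ORB-10: `g.comp (1 + X) = aeval (fun i => C (c i) + X * W i) F = ∑ l, X ^ l * aeval W (tc c l F)` is divisible by `X ^ s`, so `(X - C 1)^s ∣ g`, contradiction to (1).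
(`tay c F = ∑ l, X^l * C (tc c l F)`, and the algebra homomorphism `Polynomial (MvPolynomial (Fin m) ℂ) → Polynomial ℂ`, `X ↦ X`, coefficients by `aeval W`, composed with `tay c`, has the value `C (c i) + X * W i` at `X i`.)
-/

set_option autoImplicit false

namespace ORB

open MvPolynomial JB

theorem dvd_sparse {s : ℕ} {g : Polynomial ℂ} (hg : g.support.card ≤ s) {a : ℂ} (ha : a ≠ 0)
    (h : (Polynomial.X - Polynomial.C a) ^ s ∣ g) : g = 0 := by
  induction s generalizing g with
  | zero =>
    rw [Nat.le_zero, Finset.card_eq_zero, Polynomial.support_eq_empty] at hg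
    exact hg
  | succ s ih =>
    by_contra h0
    obtain ⟨e, he⟩ := Polynomial.support_nonempty.2 h0
    have hco : ∀ k : ℕ, (Polynomial.X * Polynomial.derivative g - Polynomial.C (e : ℂ) * g).coeff k =
        ((k : ℂ) - e) * g.coeff k := by
      intro k
      rw [Polynomial.coeff_sub, Polynomial.coeff_C_mul]
      cases k with
      | zero =>
        rw [Polynomial.coeff_X_mul_zero]
        push_cast
        ring
      | succ k =>
        rw [Polynomial.coeff_X_mul, Polynomial.coeff_derivative]
        push_cast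
        ring
    have hD : Polynomial.X * Polynomial.derivative g - Polynomial.C (e : ℂ) * g = 0 := by
      apply ih
      · have hsub : (Polynomial.X * Polynomial.derivative g - Polynomial.C (e : ℂ) * g).support ⊆
            g.support.erase e := by
          intro k hk
          rw [Polynomial.mem_support_iff, hco] at hk
          rw [Finset.mem_erase, Polynomial.mem_support_iff]
          refine ⟨?_, right_ne_zero_of_mul hk⟩
          rintro rfl
          apply hk
          rw [sub_self, zero_mul]
        have h1 := Finset.card_le_card hsub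
        rw [Finset.card_erase_of_mem he] at h1
        omega
      · have h1 := Polynomial.pow_sub_one_dvd_derivative_of_pow_dvd h
        rw [Nat.add_sub_cancel] at h1
        exact dvd_sub (h1.mul_left _) (((pow_dvd_pow _ (Nat.le_succ s)).trans h).mul_left _)
    have hmon : ∀ k, k ≠ e → g.coeff k = 0 := by
      intro k hk
      have h1 := hco k
      rw [hD, Polynomial.coeff_zero] at h1
      rcases mul_eq_zero.1 h1.symm with h2 | h2
      · exact absurd (by exact_mod_cast sub_eq_zero.1 h2) hk
      · exact h2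
    have hge : g = Polynomial.monomial e (g.coeff e) := by
      ext k
      rw [Polynomial.coeff_monomial]
      split_ifs with h1
      · rw [h1]
      · exact hmon k (Ne.symm h1)
    have hroot : g.eval a = 0 := by
      have h1 : (Polynomial.X - Polynomial.C a) ∣ g :=
        (dvd_pow_self _ (Nat.succ_ne_zero s)).trans h
      exact Polynomial.dvd_iff_isRoot.1 h1
    rw [hge, Polynomial.eval_monomial] at hroot
    rcases mul_eq_zero.1 hroot with h1 | h1
    · exact (Polynomial.mem_support_iff.1 he) h1
    · exact (pow_ne_zero e ha) h1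

/-- Kronecker exponents which separate the monomials of `F`. -/
private theorem exists_sep {m : ℕ} (F : MvPolynomial (Fin m) ℂ) : ∃ u : Fin m → ℕ,
    ∀ α ∈ F.support, ∀ β ∈ F.support, ∑ i, u i * α i = ∑ i, u i * β i → α = β := by
  obtain ⟨N, hN⟩ : ∃ N, N = F.totalDegree + 1 := ⟨_, rfl⟩
  have hlt : ∀ α ∈ F.support, ∀ i, α i < N := by
    intro α hα i
    have h1 := le_totalDegree hα
    rw [Finsupp.sum_fintype _ _ (fun _ => rfl)] at h1
    have h2 : α i ≤ ∑ j, α j := Finset.single_le_sum (fun _ _ => Nat.zero_le _) (Finset.mem_univ i)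
    omega
  refine ⟨fun i => N ^ (i : ℕ), fun α hα β hβ h => ?_⟩
  have h1 : finFunctionFinEquiv (fun i => (⟨α i, hlt α hα i⟩ : Fin N)) =
      finFunctionFinEquiv (fun i => (⟨β i, hlt β hβ i⟩ : Fin N)) := by
    apply Fin.ext
    rw [finFunctionFinEquiv_apply, finFunctionFinEquiv_apply]
    simpa only [mul_comm] using h
  have h2 := finFunctionFinEquiv.injective h1
  ext i
  have h3 := congrFun h2 i
  exact congrArg Fin.val h3

theorem exists_tc {m s : ℕ} {F : MvPolynomial (Fin m) ℂ} (hF : F.support.card ≤ s) (h0 : F ≠ 0)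
    {c : Fin m → ℂ} (hc : ∀ i, c i ≠ 0) : ∃ l < s, tc c l F ≠ 0 := by
  classical
  by_contra hcon
  push Not at hcon
  obtain ⟨u, hu⟩ := exists_sep F
  obtain ⟨g, hg⟩ : ∃ g : Polynomial ℂ,
      g = aeval (fun i => Polynomial.C (c i) * Polynomial.X ^ (u i)) F := ⟨_, rfl⟩
  obtain ⟨A, hA⟩ : ∃ A : (Fin m →₀ ℕ) → ℂ, A = fun α => coeff α F * ∏ i, c i ^ α i := ⟨_, rfl⟩
  have hgs : g = ∑ α ∈ F.support, Polynomial.monomial (∑ i, u i * α i) (A α) := by
    rw [hg, aeval_def, eval₂_eq']
    refine Finset.sum_congr rfl fun α _ => ?_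
    rw [hA, ← Polynomial.C_mul_X_pow_eq_monomial, Polynomial.algebraMap_eq, Polynomial.C_mul,
      mul_assoc]
    congr 1
    rw [map_prod, ← Finset.prod_pow_eq_pow_sum, ← Finset.prod_mul_distrib]
    refine Finset.prod_congr rfl fun i _ => ?_
    rw [mul_pow, Polynomial.C_pow, ← pow_mul]
  have hA0 : ∀ α ∈ F.support, A α ≠ 0 := by
    intro α hα
    rw [hA]
    exact mul_ne_zero (mem_support_iff.1 hα) (Finset.prod_ne_zero_iff.2 fun i _ => pow_ne_zero _ (hc i))
  have hcard : g.support.card ≤ s := by
    refine le_trans ?_ hF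
    have hsub : g.support ⊆ F.support.image fun α => ∑ i, u i * α i := by
      intro k hk
      rw [Polynomial.mem_support_iff, hgs, Polynomial.finsetSum_coeff] at hk
      obtain ⟨α, hα, h1⟩ := Finset.exists_ne_zero_of_sum_ne_zero hk
      rw [Polynomial.coeff_monomial] at h1
      refine Finset.mem_image.2 ⟨α, hα, ?_⟩
      by_contra h2
      exact h1 (if_neg h2)
    exact (Finset.card_le_card hsub).trans Finset.card_image_le
  have hg0 : g ≠ 0 := by
    obtain ⟨α, hα⟩ := support_nonempty.2 h0
    intro h1
    have h2 : g.coeff (∑ i, u i * α i) = A α := by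
      rw [hgs, Polynomial.finsetSum_coeff, Finset.sum_eq_single α]
      · rw [Polynomial.coeff_monomial, if_pos rfl]
      · intro β hβ hne
        rw [Polynomial.coeff_monomial, if_neg]
        intro h3
        exact hne (hu β hβ α hα h3)
      · intro h3
        exact absurd hα h3
    rw [h1, Polynomial.coeff_zero] at h2
    exact hA0 α hα h2.symm
  -- the Taylor expansion
  obtain ⟨W, hW⟩ : ∃ W : Fin m → Polynomial ℂ, ∀ i,
      Polynomial.C (c i) * (Polynomial.X + 1) ^ (u i) =
        Polynomial.C (c i) + Polynomial.X * W i := by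
    refine ⟨fun i => Polynomial.divX (Polynomial.C (c i) * (Polynomial.X + 1) ^ (u i)), fun i => ?_⟩
    have h1 := Polynomial.divX_mul_X_add (Polynomial.C (c i) * (Polynomial.X + 1) ^ (u i))
    have h2 : (Polynomial.C (c i) * (Polynomial.X + 1) ^ (u i)).coeff 0 = c i := by
      rw [Polynomial.coeff_zero_eq_eval_zero]
      simp
    rw [h2] at h1
    exact h1.symm.trans (by ring)
  have hdvd : (Polynomial.X : Polynomial (MvPolynomial (Fin m) ℂ)) ^ s ∣ tay c F := by
    rw [Polynomial.X_pow_dvd_iff]
    exact fun l hl => hcon l hl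
  obtain ⟨Φ, hΦ⟩ : ∃ Φ : Polynomial (MvPolynomial (Fin m) ℂ) →+* Polynomial ℂ,
      Φ = Polynomial.eval₂RingHom ((aeval W : MvPolynomial (Fin m) ℂ →ₐ[ℂ] Polynomial ℂ) :
        MvPolynomial (Fin m) ℂ →+* Polynomial ℂ) Polynomial.X := ⟨_, rfl⟩
  have hΦt : Φ (tay c F) = g.comp (Polynomial.X + 1) := by
    have h1 : (Φ.comp (tay c : MvPolynomial (Fin m) ℂ →+* Polynomial (MvPolynomial (Fin m) ℂ))) =
        (Polynomial.compRingHom (Polynomial.X + 1 : Polynomial ℂ)).comp
          ((aeval (fun i => Polynomial.C (c i) * Polynomial.X ^ (u i)) :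
            MvPolynomial (Fin m) ℂ →ₐ[ℂ] Polynomial ℂ) :
            MvPolynomial (Fin m) ℂ →+* Polynomial ℂ) := by
      refine MvPolynomial.ringHom_ext ?_ ?_
      · intro b
        simp [hΦ, tay]
      · intro i
        simp only [hΦ, tay, RingHom.comp_apply, RingHom.coe_coe, aeval_X, map_add, map_mul,
          Polynomial.coe_eval₂RingHom, Polynomial.eval₂_C, Polynomial.eval₂_X, map_pow,
          Polynomial.coe_compRingHom, Polynomial.C_comp, Polynomial.X_comp, aeval_C,
          Polynomial.algebraMap_eq]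
        exact (hW i).symm
    have h2 := RingHom.congr_fun h1 F
    simp only [RingHom.comp_apply, RingHom.coe_coe, Polynomial.coe_compRingHom] at h2
    rw [hg]
    exact h2
  have h1 : (Polynomial.X : Polynomial ℂ) ^ s ∣ g.comp (Polynomial.X + 1) := by
    have h2 := map_dvd Φ hdvd
    rw [hΦt, map_pow] at h2
    have h3 : Φ Polynomial.X = Polynomial.X := by
      rw [hΦ, Polynomial.coe_eval₂RingHom, Polynomial.eval₂_X]
    rwa [h3] at h2
  have h2 : (Polynomial.X - Polynomial.C (1 : ℂ)) ^ s ∣ g := by
    obtain ⟨q, hq⟩ := h1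
    refine ⟨q.comp (Polynomial.X - Polynomial.C 1), ?_⟩
    have h3 := congrArg (fun p => Polynomial.comp p (Polynomial.X - Polynomial.C (1 : ℂ))) hq
    simp only [Polynomial.comp_assoc, Polynomial.mul_comp, Polynomial.pow_comp,
      Polynomial.X_comp, Polynomial.add_comp, Polynomial.one_comp] at h3
    rw [map_one, sub_add_cancel, Polynomial.comp_X] at h3
    rw [map_one]
    exact h3
  exact hg0 (dvd_sparse hcard one_ne_zero h2)

end ORB
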