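import Pool.Agent.Helper88.ORB.Torus
import Pool.Agent.Helper88.ORB.TorusOrd
import Pool.Agent.Helper88.ORB.Frm
import Pool.Agent.Helper31.AO.PDer
import Pool.Agent.Helper31.AO.Final
import Pool.Agent.Helper53.JB.Newt

/-!
# ORB-14: orbits of sparse polynomials

(a) `exists_base`: `β ∈ lvl n 1` with all `eval β (frm L b i) ≠ 0`: `Joined.prod` (`joined_lvl n 1`) for the functions `x ↦ eval (fun j : Fin n => x j) (frm L b i)` on `ℕ → ℂ` (`IsPoly`: rename); each is nonzero somewhere on `lvl n 1`: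
`L i ≠ 0` (`LinearIndependent.ne_zero`), `L i j ≠ 0`, the point `Function.update 0 j c` (`one_mem_lvl`) has the value `L i j * c + b i`, choose `c` with this `= 1`.
(b) With `c i = eval β (frm L b i) ≠ 0`: let `l` be the least number with `tc c l F ≠ 0` (`exists_tc`: `l < s`). `RankLe s (tc c l F)` (`rankLe_tc`), `RankLe s (tc β l f)`, `f = aeval (frm L b) F` (`tc_frm`, `rankLe_frm`), `tc β l f ≠ 0`
(`frm_ne_zero L 0`). `AO s (tc β l f)` (`AOR.ao_of_rankLe`), `totalDegree ≤ l ≤ s` (`JB.totalDegree_tc`), so `AOR.hits` gives `y ∈ hittingSet n s s` with `eval y (tc β l f) ≠ 0`, and `JB.exists_scalar` `ζ`.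
-/

set_option autoImplicit false

namespace ORB

open MvPolynomial
open Pool.Agent.Helper4.RO (lvl)

variable {m n : ℕ} (L : Matrix (Fin m) (Fin n) ℂ) (b : Fin m → ℂ)

theorem exists_base (hL : LinearIndependent ℂ fun i => L i) :
    ∃ β ∈ lvl n 1, ∀ i, eval (fun j : Fin n => β j) (frm L b i) ≠ 0 := by
  have hne : (lvl n 1).Nonempty := ⟨_, Pool.Agent.Helper4.RO.zero_mem_lvl n 1⟩
  have hp : ∀ i ∈ (Finset.univ : Finset (Fin m)), Pool.Agent.Helper4.RO.IsPoly
      (fun x : ℕ → ℂ => eval (fun j : Fin n => x j) (frm L b i)) := by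
    intro i _
    refine ⟨rename (fun j : Fin n => (j : ℕ)) (frm L b i), fun x => ?_⟩
    rw [eval_rename]
    rfl
  have hz : ∀ i ∈ (Finset.univ : Finset (Fin m)),
      ∃ x ∈ lvl n 1, eval (fun j : Fin n => x j) (frm L b i) ≠ 0 := by
    intro i _
    have h1 : L i ≠ 0 := hL.ne_zero i
    obtain ⟨j, hj⟩ := Function.ne_iff.1 h1
    have hj' : L i j ≠ 0 := hj
    refine ⟨_, one_mem_lvl j.2 ((1 - b i) / L i j), ?_⟩
    rw [eval_frm_apply, Finset.sum_eq_single j]
    · rw [Function.update_self, mul_div_cancel₀ _ hj', sub_add_cancel]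
      exact one_ne_zero
    · intro j' _ hne'
      rw [Function.update_of_ne (fun h2 => hne' (Fin.ext h2)), mul_zero]
    · intro h2
      exact absurd (Finset.mem_univ j) h2
  obtain ⟨x, hx, h⟩ := (Pool.Agent.Helper4.RO.joined_lvl n 1).prod hne
    (Finset.univ : Finset (Fin m)) _ hp hz
  exact ⟨x, hx, fun i => h i (Finset.mem_univ i)⟩

theorem sparse_hit {s : ℕ} (hL : LinearIndependent ℂ fun i => L i)
    {F : MvPolynomial (Fin m) ℂ} (hs : F.support.card ≤ s) (h0 : F ≠ 0) :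
    ∃ β ∈ lvl n 1, ∃ y ∈ Hs n s, ∃ ζ : ℂ,
      eval (fun i : Fin n => β i + ζ * (y i : ℂ)) (aeval (frm L b) F) ≠ 0 := by
  classical
  obtain ⟨β, hβ, hne⟩ := exists_base L b hL
  set β' : Fin n → ℂ := fun j => β j with hβ'
  set c : Fin m → ℂ := fun i => eval β' (frm L b i) with hc
  have hc0 : ∀ i, c i ≠ 0 := hne
  obtain ⟨l₀, hl₀, hl₀'⟩ := exists_tc hs h0 hc0
  have hex : ∃ l, JB.tc c l F ≠ 0 := ⟨l₀, hl₀'⟩
  set l := Nat.find hex with hl
  have hl1 : JB.tc c l F ≠ 0 := Nat.find_spec hex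
  have hl2 : ∀ l' < l, JB.tc c l' F = 0 := fun l' h' => not_not.1 (Nat.find_min hex h')
  have hls : l ≤ s := (Nat.find_min' hex hl₀').trans hl₀.le
  have hrank := rankLe_frm L (rankLe_tc hs hc0 hl2)
  have htc : JB.tc β' l (aeval (frm L b) F) = aeval (frm L 0) (JB.tc c l F) := tc_frm L b F β' l
  rw [← htc] at hrank
  have hnz : JB.tc β' l (aeval (frm L b) F) ≠ 0 := by
    rw [htc]
    exact frm_ne_zero L 0 hL hl1
  obtain ⟨y, hy, hy'⟩ := AOR.hits (AOR.ao_of_rankLe hrank) hnz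
    ((JB.totalDegree_tc β' l _).trans hls)
  obtain ⟨z, _, hz⟩ := JB.exists_scalar β' (fun i => ((y i : ℤ) : ℂ)) le_rfl hy'
  exact ⟨β, hβ, y, hy, (z : ℂ), hz⟩

end ORB
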