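import Pool.Agent.Helper88.ORB.Alg
import Pool.Agent.Helper88.ORB.Sparse
import Pool.Agent.Helper88.ORB.Grid

/-!
# ORB: the hitting property (helper88)
-/

set_option autoImplicit false

namespace ORB

open MvPolynomial
open Pool.Agent.Helper4.RO (lvl lvl_mono)
open Pool.Agent.Helper4.RK (IsRK RkFactors KF)
open Pool.Agent.Helper28.D4 (G)

variable {n : ℕ}

/-- All the classes are hit on the family. -/
theorem cls_fam {r q w k s : ℕ} (hw : 1 ≤ w) {f : MvPolynomial (Fin n) ℂ}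
    (hf : f ∈ SparseOrb n s ∪ ProgOrb n r w k ∪ Circ n r q w k) (h0 : f ≠ 0) :
    ∃ x ∈ fam n (blk r q w k) (Hs n s), eval x f ≠ 0 := by
  have hK1 : 1 ≤ KA r w k := by unfold KA; omega
  have hK : 1 ≤ blk r q w k := hK1.trans (Nat.le_add_right _ _)
  rcases hf with (⟨m, L, b, F, hL, hs, rfl⟩ | ⟨m, L, b, t, P, g, hL, hP, hr, rfl⟩) |
    ⟨m, P, g, hP, hr, rfl⟩
  · have hF : F ≠ 0 := by
      rintro rfl
      exact h0 (map_zero _)
    obtain ⟨β, hβ, y, hy, ζ, h⟩ := sparse_hit L b hL hs hF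
    exact ⟨_, base_fam hK (Hs n s) hβ hy ζ, h⟩
  · have hF : aeval P g ≠ 0 := by
      intro h
      rw [h] at h0
      exact h0 (map_zero _)
    obtain ⟨x, hx, h⟩ := alg_hit L b hw hL P hP
      (fun s hs => hr ⟨s, fun i j hij => hs.injective (by simp only [hij])⟩ hs) g hF
    exact ⟨_, lvl_fam (Hs n s) (lvl_mono (Nat.le_add_right _ _) hx), h⟩
  · obtain ⟨a, ha, h⟩ := Pool.Agent.Helper4.RK.factors_hit (q := q) (k := k) hw P hP
      (fun s hs => hr ⟨s, fun i j hij => hs.injective (by simp only [hij])⟩ hs) g h0 le_rfl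
    have hx : (fun i : ℕ => if hi : i < n then ((a ⟨i, hi⟩ : ℤ) : ℂ) else 0) ∈
        lvl n (KF r q w k) := by
      rw [Pool.Agent.Helper62.VT.pts, Finset.mem_image] at ha
      obtain ⟨c, -, rfl⟩ := ha
      refine ⟨fun j => ((c.2.1 j : ℕ) : ℂ), fun j => ((c.2.2 j : ℕ) : ℂ), fun i => ?_⟩
      beta_reduce
      rw [dif_pos i.2]
      have h1 := Pool.Agent.Helper28.D4.map_G (n := n) (Int.castRingHom ℂ)
        (fun j => ((c.2.1 j : ℕ) : ℤ)) (fun j => ((c.2.2 j : ℕ) : ℤ)) i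
      simp only [eq_intCast, Int.cast_natCast] at h1
      simp only [zero_add]
      exact h1
    refine ⟨_, lvl_fam (Hs n s) (lvl_mono (Nat.le_add_left _ _) hx), ?_⟩
    have h2 : (fun i : Fin n => if hi : (i : ℕ) < n then ((a ⟨i, hi⟩ : ℤ) : ℂ) else 0) =
        fun l => ((a l : ℤ) : ℂ) := by
      funext i
      rw [dif_pos i.2]
    rw [h2]
    exact h

/-- **Theorem ORB.** -/
theorem oset_hits {r q w k s d : ℕ} (hw : 1 ≤ w) {f g : MvPolynomial (Fin n) ℂ}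
    (hg : g ∈ Submonoid.closure (SparseOrb n s ∪ ProgOrb n r w k ∪ Circ n r q w k))
    (h0 : g ≠ 0) (hf : f ∣ g) (hd : f.totalDegree ≤ d) :
    ∃ a ∈ oset n r q w k s d, eval (fun i => ((a i : ℤ) : ℂ)) f ≠ 0 := by
  obtain ⟨x, hx, h⟩ := fam_prod (Hs n s) _ (fun p hp hp0 => cls_fam (q := q) hw hp hp0) hg h0
  obtain ⟨z, w', ζ, t, h1⟩ := fam_grid (K := blk r q w k) (Hs n s) hd ⟨x, hx, by
    obtain ⟨p, rfl⟩ := hf
    rw [map_mul] at h
    exact left_ne_zero_of_mul h⟩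
  refine ⟨_, Finset.mem_image.2 ⟨((ζ, t), z, w'), Finset.mem_univ _, rfl⟩, ?_⟩
  exact h1

end ORB
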