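import Pool.Agent.Helper88.ORB.Defs

/-!
# ORB-03: a monomial with small exponents

Induction on `t`. `t = 0`: `α = 0` (`P` is a nonzero constant). `t + 1`: `P = ∑ a, X_0 ^ a * P_a(X_1, ..)`, `P_a = (finSuccEquiv F t P).coeff a`.
* There is `y` with the slice `slice P (Fin.cons 0 y) 0 = ∑ a, (eval y P_a) X ^ a ≠ 0` (some `P_a ≠ 0`, take `y` with `eval y P_a ≠ 0`). It is in `V 0`, so for some `a < D`: `eval y P_a ≠ 0`, `P_a ≠ 0`.
* `P_a` satisfies the hypothesis for `V ∘ Fin.succ`: `slice P_a y j ∈ V j.succ` for all `y, j`. Indeed for all `c : F`: `slice P (Fin.cons c y) j.succ = ∑ a, c ^ a • slice P_a y j`; a polynomial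
`∑ a < m, c ^ a • v_a` with values in a subspace for all `c` (infinite field) has its coefficients in the subspace: choose `m` distinct `c_i`, the inverse of the Vandermonde matrix
(`Matrix.det_vandermonde_ne_zero_iff`) gives `v_a = ∑ i, λ_i (∑ a', c_i ^ a' • v_a')`. (Or: Lagrange interpolation, or a linear functional vanishing on the subspace: for every `φ` in the dual annihilator the
polynomial `∑ φ(v_a) X^a` has infinitely many roots; `Submodule.dualAnnihilator`/`Subspace.forall_mem_dualAnnihilator_apply_eq_zero_iff`.)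
* By induction `α' ∈ P_a.support` with all `α' j < D`; `α = Finsupp.cons a α'` (`MvPolynomial.finSuccEquiv_coeff_coeff`).
-/

set_option autoImplicit false

namespace ORB

open MvPolynomial

private lemma slice_zero {F : Type*} [Field F] {t : ℕ} (P : MvPolynomial (Fin (t + 1)) F) (c : F)
    (y : Fin t → F) : slice P (Fin.cons c y) 0 = (finSuccEquiv F t P).map (eval y) := by
  have h : (aeval (fun i : Fin (t + 1) => if i = 0 then Polynomial.X else
      Polynomial.C ((Fin.cons c y : Fin (t + 1) → F) i)) : MvPolynomial (Fin (t + 1)) F →ₐ[F] _) =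
      (Polynomial.mapAlgHom (aeval y)).comp (finSuccEquiv F t).toAlgHom := by
    apply MvPolynomial.algHom_ext
    intro i
    refine Fin.cases ?_ (fun j => ?_) i
    · simp [finSuccEquiv_X_zero]
    · simp [finSuccEquiv_X_succ, Fin.succ_ne_zero]
  have h1 := DFunLike.congr_fun h P
  unfold slice
  rw [h1]
  rfl

private lemma slice_succ {F : Type*} [Field F] {t : ℕ} (P : MvPolynomial (Fin (t + 1)) F) (c : F)
    (y : Fin t → F) (j : Fin t) : slice P (Fin.cons c y) j.succ =
      ∑ a ∈ Finset.range ((finSuccEquiv F t P).natDegree + 1),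
        c ^ a • slice ((finSuccEquiv F t P).coeff a) y j := by
  obtain ⟨φ, hφ⟩ : ∃ φ : MvPolynomial (Fin t) F →ₐ[F] Polynomial F, φ = aeval (fun i : Fin t =>
    if i = j then Polynomial.X else Polynomial.C (y i)) := ⟨_, rfl⟩
  have h : (aeval (fun i : Fin (t + 1) => if i = j.succ then Polynomial.X else
      Polynomial.C ((Fin.cons c y : Fin (t + 1) → F) i)) :
        MvPolynomial (Fin (t + 1)) F →ₐ[F] Polynomial F).toRingHom =
      (Polynomial.eval₂RingHom φ.toRingHom (Polynomial.C c)).comp
        (finSuccEquiv F t).toRingEquiv.toRingHom := by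
    apply MvPolynomial.ringHom_ext
    · intro r
      have h2 : finSuccEquiv F t (C r) = Polynomial.C (C r) := by simp [finSuccEquiv_apply]
      simp [h2]
    · intro i
      refine Fin.cases ?_ (fun l => ?_) i
      · have h3 : ¬ (0 : Fin (t + 1)) = j.succ := (Fin.succ_ne_zero j).symm
        simp [finSuccEquiv_X_zero, h3]
      · simp [finSuccEquiv_X_succ, hφ]
  have h1 := DFunLike.congr_fun h P
  have h2 : slice P (Fin.cons c y) j.succ =
      Polynomial.eval₂ φ.toRingHom (Polynomial.C c) (finSuccEquiv F t P) := h1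
  rw [h2, Polynomial.eval₂_eq_sum_range]
  refine Finset.sum_congr rfl fun a _ => ?_
  rw [Polynomial.smul_eq_C_mul, map_pow, mul_comm]
  congr 1
  rw [hφ]
  rfl

private lemma coeff_mem {F E : Type*} [Field F] [Infinite F] [AddCommGroup E] [Module F E]
    (W : Submodule F E) (m : ℕ) (v : ℕ → E)
    (h : ∀ c : F, ∑ a ∈ Finset.range m, c ^ a • v a ∈ W) : ∀ a < m, v a ∈ W := by
  intro a ha
  rw [← Subspace.forall_mem_dualAnnihilator_apply_eq_zero_iff]
  intro φ hφ
  have h1 : ∑ a ∈ Finset.range m, Polynomial.C (φ (v a)) * Polynomial.X ^ a =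
      (0 : Polynomial F) := by
    apply Polynomial.funext
    intro c
    have h2 := (Submodule.mem_dualAnnihilator φ).1 hφ _ (h c)
    rw [map_sum] at h2
    rw [Polynomial.eval_finsetSum, Polynomial.eval_zero, ← h2]
    refine Finset.sum_congr rfl fun a _ => ?_
    rw [map_smul, smul_eq_mul, Polynomial.eval_mul, Polynomial.eval_C, Polynomial.eval_pow,
      Polynomial.eval_X, mul_comm]
  have h2 := congrArg (fun p => Polynomial.coeff p a) h1
  simp only [Polynomial.finsetSum_coeff, Polynomial.coeff_C_mul_X_pow, Polynomial.coeff_zero] at h2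
  rw [Finset.sum_ite_eq, if_pos (Finset.mem_range.2 ha)] at h2
  exact h2

theorem exists_mono {F : Type*} [Field F] [Infinite F] {t D : ℕ}
    (V : Fin t → Submodule F (Polynomial F))
    (hV : ∀ j, ∀ h ∈ V j, h ≠ 0 → ∃ a < D, h.coeff a ≠ 0) (P : MvPolynomial (Fin t) F)
    (hP : P ≠ 0) (hs : ∀ (y : Fin t → F) (j : Fin t), slice P y j ∈ V j) :
    ∃ α ∈ P.support, ∀ j, α j < D := by
  induction t with
  | zero =>
    obtain ⟨α, hα⟩ := Finset.nonempty_iff_ne_empty.2 (fun h => hP (support_eq_empty.1 h))
    exact ⟨α, hα, fun j => j.elim0⟩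
  | succ t ih =>
    have hQ : finSuccEquiv F t P ≠ 0 := fun h => hP ((map_eq_zero_iff _
      (finSuccEquiv F t).injective).1 h)
    obtain ⟨a, ha⟩ : ∃ a, (finSuccEquiv F t P).coeff a ≠ 0 := by
      by_contra h
      push Not at h
      exact hQ (Polynomial.ext fun a => by rw [h a, Polynomial.coeff_zero])
    obtain ⟨y, hy⟩ : ∃ y : Fin t → F, eval y ((finSuccEquiv F t P).coeff a) ≠ 0 := by
      by_contra h
      push Not at h
      exact ha (MvPolynomial.funext fun y => by rw [h y, map_zero])
    have h0 : slice P (Fin.cons 0 y) 0 ≠ 0 := by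
      rw [slice_zero]
      intro h
      apply hy
      have h1 := congrArg (fun p => Polynomial.coeff p a) h
      simpa only [Polynomial.coeff_map, Polynomial.coeff_zero] using h1
    obtain ⟨a₀, ha₀, h1⟩ := hV 0 _ (hs (Fin.cons 0 y) 0) h0
    rw [slice_zero, Polynomial.coeff_map] at h1
    have h2 : (finSuccEquiv F t P).coeff a₀ ≠ 0 := fun h => h1 (by rw [h, map_zero])
    obtain ⟨α, hα, hαD⟩ := ih (fun j => V j.succ) (fun j => hV j.succ)
      ((finSuccEquiv F t P).coeff a₀) h2 (fun z j => by
        have h3 := coeff_mem (V j.succ) ((finSuccEquiv F t P).natDegree + 1)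
          (fun a => slice ((finSuccEquiv F t P).coeff a) z j) (fun c => by
            rw [← slice_succ]
            exact hs _ _)
        apply h3
        have := Polynomial.le_natDegree_of_ne_zero h2
        omega)
    refine ⟨Finsupp.cons a₀ α, ?_, fun j => ?_⟩
    · rw [mem_support_iff, ← finSuccEquiv_coeff_coeff]
      exact mem_support_iff.1 hα
    · refine Fin.cases ?_ (fun l => ?_) j
      · rw [Finsupp.cons_zero]
        exact ha₀
      · rw [Finsupp.cons_succ]
        exact hαD l

end ORB
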