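import Pool.Agent.Helper88.ORB.Defs

/-!
# ORB-04: a program as a function of one of its variables

`C.val n x = C.u ⬝ᵥ (segx C.M C.v x 0 n *ᵥ C.w)`, `segx M v x 0 n = seg (ev M fun l => x (v l)) 0 n` (product of the matrices `(M l).map (eval (x (v l)))`, `l < n`), `cnt v 0 n j` = number of `l < n` with `v l = j`.
Fix `j`. By induction on `n` define finite sets `T n : Finset (Polynomial F)`: `T 0 = {1}`, `T (n+1) = T n` if `v n ≠ j`, and `T (n+1) = {p * M n a b | p ∈ T n, a b}` if `v n = j`. Then
`(T n).card ≤ (card κ ^ 2) ^ cnt v 0 n j ≤ (card κ + 1) ^ (2 k)` and for all `x` and `a b` there is `h ∈ span F (T n)` with `segx M v (Function.update x j c) 0 n a b = h.eval c` for all `c`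
(`seg_succ`, `Matrix.mul_apply`; if `v n = j`: `(ev M ..) n a b = (M n a b).eval c`, otherwise it does not depend on `c`; `span` is closed under sums and scalars; for `v n = j` the product of `h ∈ span (T n)` and
`M n a b` is in `span (T (n+1))`: `Submodule.span_induction`). `C.val` is a linear combination of the entries. `finrank_span_finset_le_card`.
-/

set_option autoImplicit false

namespace ORB

open Pool.Agent.Helper4.RO (Chain)
open Pool.Agent.Helper4.RK (IsRd)

variable {F : Type*} [Field F] {κ : Type*} [Fintype κ] [DecidableEq κ]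

private theorem cnt_succ (v : ℕ → ℕ) (n j : ℕ) :
    Pool.Agent.Helper4.RK.cnt v 0 (n + 1) j =
      Pool.Agent.Helper4.RK.cnt v 0 n j + if v n = j then 1 else 0 := by
  unfold Pool.Agent.Helper4.RK.cnt
  rw [← Finset.range_eq_Ico, ← Finset.range_eq_Ico, Finset.range_add_one, Finset.filter_insert]
  split_ifs with h
  · rw [Finset.card_insert_of_notMem]
    intro h1
    exact absurd (Finset.mem_range.1 (Finset.mem_filter.1 h1).1) (lt_irrefl n)
  · rw [add_zero]

private theorem exists_fin (M : ℕ → Matrix κ κ (Polynomial F)) (v : ℕ → ℕ) (j : ℕ) (n : ℕ) :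
    ∃ T : Finset (Polynomial F),
      T.card ≤ (Fintype.card κ ^ 2) ^ Pool.Agent.Helper4.RK.cnt v 0 n j ∧
      ∀ (x : ℕ → F) (a b : κ), ∃ h ∈ Submodule.span F (T : Set (Polynomial F)), ∀ c : F,
        Pool.Agent.Helper4.RO.segx M v (Function.update x j c) 0 n a b = h.eval c := by
  classical
  induction n with
  | zero =>
    refine ⟨{1}, ?_, fun x a b => ⟨(if a = b then (1 : F) else 0) • 1, ?_, fun c => ?_⟩⟩
    · have h1 : Pool.Agent.Helper4.RK.cnt v 0 0 j = 0 := by
        unfold Pool.Agent.Helper4.RK.cnt
        simp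
      rw [h1, pow_zero, Finset.card_singleton]
    · refine Submodule.smul_mem _ _ (Submodule.subset_span ?_)
      simp
    · unfold Pool.Agent.Helper4.RO.segx
      rw [Pool.Agent.Helper4.RO.seg_self, Matrix.one_apply]
      split_ifs <;> simp
  | succ n ih =>
    obtain ⟨T, hT, hT'⟩ := ih
    have hstep : ∀ (x : ℕ → F) (a b : κ) (c : F),
        Pool.Agent.Helper4.RO.segx M v (Function.update x j c) 0 (n + 1) a b =
          ∑ e, Pool.Agent.Helper4.RO.segx M v (Function.update x j c) 0 n a e *
            (M n e b).eval (Function.update x j c (v n)) := by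
      intro x a b c
      unfold Pool.Agent.Helper4.RO.segx
      rw [Pool.Agent.Helper4.RO.seg_succ _ (Nat.zero_le n), Matrix.mul_apply]
      rfl
    by_cases hj : v n = j
    · refine ⟨(T ×ˢ (Finset.univ : Finset (κ × κ))).image fun p => p.1 * M n p.2.1 p.2.2, ?_, ?_⟩
      · refine Finset.card_image_le.trans ?_
        rw [Finset.card_product, cnt_succ, if_pos hj, pow_succ, Finset.card_univ,
          Fintype.card_prod, ← sq]
        exact Nat.mul_le_mul_right _ hT
      · intro x a b
        choose h hh hh' using hT' x a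
        refine ⟨∑ e, h e * M n e b, Submodule.sum_mem _ fun e _ => ?_, fun c => ?_⟩
        · have h1 : Submodule.map (LinearMap.mulRight F (M n e b))
              (Submodule.span F (T : Set (Polynomial F))) ≤ Submodule.span F
                (((T ×ˢ (Finset.univ : Finset (κ × κ))).image fun p => p.1 * M n p.2.1 p.2.2 :
                  Finset (Polynomial F)) : Set (Polynomial F)) := by
            rw [Submodule.map_span_le]
            intro p hp
            refine Submodule.subset_span ?_
            rw [Finset.mem_coe, Finset.mem_image]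
            exact ⟨(p, (e, b)), Finset.mem_product.2 ⟨hp, Finset.mem_univ _⟩, rfl⟩
          exact h1 ⟨h e, hh e, rfl⟩
        · rw [hstep, Polynomial.eval_finsetSum]
          refine Finset.sum_congr rfl fun e _ => ?_
          rw [hh' e c, Polynomial.eval_mul, hj, Function.update_self]
    · refine ⟨T, ?_, ?_⟩
      · rw [cnt_succ, if_neg hj, add_zero]
        exact hT
      · intro x a b
        choose h hh hh' using hT' x a
        refine ⟨∑ e, (M n e b).eval (x (v n)) • h e, Submodule.sum_mem _ fun e _ =>
          Submodule.smul_mem _ _ (hh e), fun c => ?_⟩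
        rw [hstep, Polynomial.eval_finsetSum]
        refine Finset.sum_congr rfl fun e _ => ?_
        rw [hh' e c, Polynomial.eval_smul, Function.update_of_ne hj, smul_eq_mul, mul_comm]

theorem exists_span {N k n : ℕ} (C : Chain F κ) (hv : IsRd N k n C.v) (j : ℕ) :
    ∃ V : Submodule F (Polynomial F), FiniteDimensional F V ∧
      Module.finrank F V ≤ dm k (Fintype.card κ) ∧
      ∀ x : ℕ → F, ∃ h ∈ V, ∀ c : F, C.val n (Function.update x j c) = h.eval c := by
  classical
  obtain ⟨T, hT, hT'⟩ := exists_fin C.M C.v j n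
  refine ⟨Submodule.span F (T : Set (Polynomial F)), FiniteDimensional.span_finset F T, ?_, ?_⟩
  · refine (finrank_span_finset_le_card T).trans (hT.trans ?_)
    unfold dm
    rw [← pow_mul]
    calc Fintype.card κ ^ (2 * Pool.Agent.Helper4.RK.cnt C.v 0 n j)
        ≤ (Fintype.card κ + 1) ^ (2 * Pool.Agent.Helper4.RK.cnt C.v 0 n j) :=
          Nat.pow_le_pow_left (Nat.le_succ _) _
      _ ≤ (Fintype.card κ + 1) ^ (2 * k) :=
          Nat.pow_le_pow_right (Nat.succ_pos _) (Nat.mul_le_mul_left 2 (hv.le j))
  · intro x
    choose h hh hh' using hT' x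
    refine ⟨∑ a, ∑ b, (C.u a * C.w b) • h a b, Submodule.sum_mem _ fun a _ =>
      Submodule.sum_mem _ fun b _ => Submodule.smul_mem _ _ (hh a b), fun c => ?_⟩
    unfold Pool.Agent.Helper4.RO.Chain.val dotProduct Matrix.mulVec dotProduct
    rw [Polynomial.eval_finsetSum]
    refine Finset.sum_congr rfl fun a _ => ?_
    rw [Finset.mul_sum, Polynomial.eval_finsetSum]
    refine Finset.sum_congr rfl fun b _ => ?_
    rw [Polynomial.eval_smul, smul_eq_mul, ← hh' a b c]
    ring

end ORB
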