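import Pool.Agent.Helper88.ORB.DirMono
import Pool.Agent.Helper88.ORB.Bad
import Pool.Agent.Helper88.ORB.Mono
import Pool.Agent.Helper88.ORB.Span

/-!
# ORB-05: the order of a program at a general point

Let `V j` be the spaces of `exists_span`, `B j` the sets of `exists_bad` for `V j`, `D = dm k (card κ)`. Let `x j ∉ B j` for `j < N`, `s ⊆ range N`, `z = x` off `s`, `C.val n z ≠ 0`. Let `t = s.card` and
`e : Fin t → ℕ` the increasing enumeration of `s` (`s.orderEmbOfFin rfl`). `C.val n = eval · p` for `p : MvPolynomial ℕ F` (`IsPoly`; `Pool.Agent.Helper4.RO.MIsPoly.dot`, `MIsPoly.segx`);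
`P = aeval (fun i => C (x i) + ∑ j, if e j = i then X j else 0) p : MvPolynomial (Fin t) F`, so `C.val n (x + ∑ y_j) = eval y P` for all `y`. `P ≠ 0`, since `eval (fun j => z (e j) - x (e j)) P = C.val n z`.
`V' j = (V (e j)).map (Polynomial.taylor (x (e j)))` (`taylor r f = f.comp (X + C r)`). `slice P y j ∈ V' j`: for all `c`,
`(slice P y j).eval c = C.val n (x + ..)` with the coordinate `e j` equal to `x (e j) + c`, `= h.eval (x (e j) + c) = (taylor (x (e j)) h).eval c` with `h ∈ V (e j)` (infinite field: `Polynomial.funext`).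
Nonzero elements `taylor r h` of `V' j` have a nonzero coefficient of index `< D`: `h ≠ 0`, `rootMultiplicity r h < D` and `Polynomial.rootMultiplicity_eq_natTrailingDegree`,
`Polynomial.trailingCoeff_nonzero_iff_nonzero`. `exists_mono` gives `α ∈ P.support`, all `α j < D`, `∑ α j ≤ t * D`. `dirLE_of_mono`.
(`CharZero F` gives `Infinite F`.)
-/

set_option autoImplicit false

namespace ORB

open Pool.Agent.Helper4.RO (Chain)
open Pool.Agent.Helper4.RK (IsRd)

variable {F : Type*} [Field F] [CharZero F] {κ : Type*} [Fintype κ] [DecidableEq κ]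

theorem exists_badSet {N k n : ℕ} (C : Chain F κ) (hv : IsRd N k n C.v) :
    ∃ B : ℕ → Finset F, ∀ x : ℕ → F, (∀ j < N, x j ∉ B j) → ∀ s ⊆ Finset.range N, ∀ z : ℕ → F,
      (∀ i ∉ s, z i = x i) → C.val n z ≠ 0 →
      DirLE N (s.card * dm k (Fintype.card κ)) (fun y => C.val n y) x := by
  classical
  choose V hVfin hVdim hVspan using fun j => exists_span C hv j
  have hB : ∀ j, ∃ B : Finset F, ∀ c ∉ B, ∀ h ∈ V j, h ≠ 0 →
      h.rootMultiplicity c < dm k (Fintype.card κ) := fun j => by
    have := hVfin j
    exact exists_bad _ (V j) (hVdim j)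
  choose B hB using hB
  refine ⟨B, fun x hx s hs z hz hne => ?_⟩
  obtain ⟨e, he⟩ : ∃ e : Fin s.card → ℕ, e = fun j => s.orderEmbOfFin rfl j := ⟨_, rfl⟩
  have hinj : Function.Injective e := by
    rw [he]
    exact (s.orderEmbOfFin rfl).injective
  have hes : ∀ j, e j ∈ s := fun j => by
    rw [he]
    exact s.orderEmbOfFin_mem rfl j
  have hesurj : ∀ i ∈ s, ∃ j, e j = i := fun i hi => by
    have h1 : i ∈ Set.range (s.orderEmbOfFin rfl) := by
      rw [Finset.range_orderEmbOfFin]
      exact hi
    obtain ⟨j, hj⟩ := h1
    exact ⟨j, by rw [he]; exact hj⟩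
  have heN : ∀ j, e j < N := fun j => Finset.mem_range.1 (hs (hes j))
  obtain ⟨p, hp⟩ : Pool.Agent.Helper4.RO.IsPoly (fun y : ℕ → F => C.val n y) :=
    (Pool.Agent.Helper4.RO.MIsPoly.segx C.M C.v 0 n).dot C.u C.w
  obtain ⟨P, hPdef⟩ : ∃ P : MvPolynomial (Fin s.card) F, P =
      MvPolynomial.aeval (fun i => MvPolynomial.C (x i) +
        ∑ j, if e j = i then MvPolynomial.X j else 0) p := ⟨_, rfl⟩
  have hP : ∀ y : Fin s.card → F,
      C.val n (fun i => x i + ∑ j, if e j = i then y j else 0) = MvPolynomial.eval y P := by
    intro y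
    have h1 := hp (fun i => x i + ∑ j, if e j = i then y j else 0)
    simp only at h1
    rw [h1, hPdef, MvPolynomial.aeval_def, ← MvPolynomial.coe_eval₂Hom, ← RingHom.comp_apply]
    have h2 : (MvPolynomial.eval y).comp (MvPolynomial.eval₂Hom
        (algebraMap F (MvPolynomial (Fin s.card) F)) (fun i => MvPolynomial.C (x i) +
        ∑ j, if e j = i then MvPolynomial.X j else 0)) =
        MvPolynomial.eval (fun i => x i + ∑ j, if e j = i then y j else 0) := by
      apply MvPolynomial.ringHom_ext
      · intro r
        simp [MvPolynomial.algebraMap_eq]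
      · intro i
        simp only [RingHom.comp_apply, MvPolynomial.coe_eval₂Hom, MvPolynomial.eval₂_X, map_add,
          MvPolynomial.eval_C, map_sum, MvPolynomial.eval_X]
        congr 1
        refine Finset.sum_congr rfl fun j _ => ?_
        split_ifs with h
        · simp
        · simp
    rw [h2]
  have hP0 : P ≠ 0 := by
    intro h0
    apply hne
    have h1 := hP (fun j => z (e j) - x (e j))
    rw [h0, map_zero] at h1
    rw [← h1]
    congr 1
    funext i
    by_cases hi : i ∈ s
    · obtain ⟨j, hj⟩ := hesurj i hi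
      rw [Finset.sum_eq_single j]
      · rw [if_pos hj, hj]
        ring
      · intro b _ hb
        rw [if_neg]
        intro h
        exact hb (hinj (h.trans hj.symm))
      · intro h
        exact absurd (Finset.mem_univ j) h
    · rw [Finset.sum_eq_zero, add_zero, hz i hi]
      intro j _
      rw [if_neg]
      intro h
      exact hi (h ▸ hes j)
  have hV' : ∀ j, ∀ h ∈ (V (e j)).map (Polynomial.taylor (x (e j))), h ≠ 0 →
      ∃ a < dm k (Fintype.card κ), h.coeff a ≠ 0 := by
    intro j h hh h0
    obtain ⟨g, hg, rfl⟩ := hh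
    have hg0 : g ≠ 0 := by
      rintro rfl
      exact h0 (map_zero _)
    have h1 := hB (e j) (x (e j)) (hx _ (heN j)) g hg hg0
    rw [Polynomial.rootMultiplicity_eq_natTrailingDegree] at h1
    refine ⟨_, h1, ?_⟩
    have h2 := Polynomial.trailingCoeff_nonzero_iff_nonzero.2 h0
    rw [Polynomial.trailingCoeff] at h2
    exact h2
  have hsl : ∀ (y : Fin s.card → F) (j : Fin s.card),
      slice P y j ∈ (V (e j)).map (Polynomial.taylor (x (e j))) := by
    intro y j
    obtain ⟨h, hh, hev⟩ := hVspan (e j) (fun i => x i + ∑ j', if e j' = i then y j' else 0)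
    refine ⟨h, hh, ?_⟩
    apply Polynomial.funext
    intro c
    rw [Polynomial.taylor_eval, ← hev]
    have h1 : (slice P y j).eval c = MvPolynomial.eval (Function.update y j c) P := by
      rw [slice, MvPolynomial.aeval_def, ← MvPolynomial.coe_eval₂Hom, ← Polynomial.coe_evalRingHom,
        ← RingHom.comp_apply]
      have h2 : (Polynomial.evalRingHom c).comp (MvPolynomial.eval₂Hom
          (algebraMap F (Polynomial F)) (fun i => if i = j then Polynomial.X
          else Polynomial.C (y i))) = MvPolynomial.eval (Function.update y j c) := by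
        apply MvPolynomial.ringHom_ext
        · intro r
          simp
        · intro i
          simp only [RingHom.comp_apply, MvPolynomial.coe_eval₂Hom, MvPolynomial.eval₂_X,
            MvPolynomial.eval_X, Polynomial.coe_evalRingHom]
          by_cases hij : i = j
          · subst hij
            simp
          · rw [if_neg hij, Polynomial.eval_C, Function.update_of_ne hij]
      rw [h2]
    rw [h1, ← hP]
    congr 1
    funext i
    by_cases hi : i = e j
    · subst hi
      rw [Function.update_self, Finset.sum_eq_single j]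
      · rw [if_pos rfl, Function.update_self]
        ring
      · intro b _ hb
        rw [if_neg]
        intro h
        exact hb (hinj h)
      · intro h
        exact absurd (Finset.mem_univ j) h
    · rw [Function.update_of_ne hi]
      congr 1
      refine Finset.sum_congr rfl fun j' _ => ?_
      split_ifs with h3
      · rw [Function.update_of_ne]
        rintro rfl
        exact hi h3.symm
      · rfl
  obtain ⟨α, hα, hαD⟩ := exists_mono (fun j => (V (e j)).map (Polynomial.taylor (x (e j))))
    hV' P hP0 hsl
  refine dirLE_of_mono hinj heN P hP hα ?_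
  calc ∑ j, α j ≤ ∑ _j : Fin s.card, dm k (Fintype.card κ) :=
        Finset.sum_le_sum fun j _ => (hαD j).le
    _ = s.card * dm k (Fintype.card κ) := by
        rw [Finset.sum_const, Finset.card_univ, Fintype.card_fin, smul_eq_mul]

end ORB
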