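import Pool.Agent.Helper88.ORB.Defs
import Pool.Agent.Helper31.AO.Sharp

/-!
# ORB-15: the size of the hitting set

Copy `Helper88/LR/Size.lean`. `AOR.card_simple`: `(hittingSet n D r).card ≤ C (n + 1)^4 (D + 1)^2 (r + 1)^15`, so `(Hs n s).card ≤ C (n + s + 2)^21`;
`grd + 1 = d ((Hs n s).card + n) + 1 ≤ C' X^22`, `X = n + s + d + 2`; `card oset ≤ (grd + 1)^(2 K + 2)` (`Finset.card_image_le`), `K = blk r q w k`.
-/

set_option autoImplicit false

namespace ORB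

theorem card_Hs_le : ∃ C : ℕ, ∀ n s : ℕ, (Hs n s).card ≤ C * (n + s + 2) ^ 21 := by
  obtain ⟨C, hC⟩ := AOR.card_simple
  refine ⟨C, fun n s => ?_⟩
  have h0 := hC n s s
  change (AOR.hittingSet n s s).card ≤ _
  refine h0.trans ?_
  set X := n + s + 2 with hX
  have k1 : (n + 1) ^ 4 ≤ X ^ 4 := Nat.pow_le_pow_left (by omega) 4
  have k2 : (s + 1) ^ 2 ≤ X ^ 2 := Nat.pow_le_pow_left (by omega) 2
  have k3 : (s + 1) ^ 15 ≤ X ^ 15 := Nat.pow_le_pow_left (by omega) 15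
  refine (Nat.mul_le_mul (Nat.mul_le_mul (Nat.mul_le_mul_left C k1) k2) k3).trans (le_of_eq ?_)
  ring

theorem grd_le : ∃ C : ℕ, ∀ n s d : ℕ, grd n s d + 1 ≤ C * (n + s + d + 2) ^ 22 := by
  obtain ⟨C, hC⟩ := card_Hs_le
  refine ⟨C + 2, fun n s d => ?_⟩
  set X := n + s + d + 2 with hX
  have hX1 : 1 ≤ X := by omega
  have h1 : (Hs n s).card ≤ C * X ^ 21 := by
    refine (hC n s).trans ?_
    have h2 : n + s + 2 ≤ X := by omega
    gcongr
  have h3 : d ≤ X := by omega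
  have h4 : n ≤ X ^ 21 := by
    calc n ≤ X ^ 1 := by rw [pow_one]; omega
      _ ≤ X ^ 21 := Nat.pow_le_pow_right hX1 (by omega)
  have h5 : 1 ≤ X * X ^ 21 := Nat.mul_pos hX1 (Nat.pow_pos hX1)
  have h6 : X * X ^ 21 = X ^ 22 := (pow_succ' X 21).symm
  change d * ((Hs n s).card + n) + 1 ≤ _
  generalize X ^ 22 = Z at h6 ⊢
  generalize X ^ 21 = Y at h1 h4 h5 h6
  have h7 : d * ((Hs n s).card + n) ≤ X * (C * Y + Y) :=
    Nat.mul_le_mul h3 (Nat.add_le_add h1 h4)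
  have h8 : (C + 2) * (X * Y) = (C + 2) * Z := by rw [h6]
  have h9 : X * (C * Y + Y) + X * Y = (C + 2) * (X * Y) := by ring
  omega

theorem card_oset_le' (n r q w k s d : ℕ) :
    (oset n r q w k s d).card ≤ (grd n s d + 1) ^ (2 * blk r q w k + 2) := by
  unfold oset
  refine Finset.card_image_le.trans ?_
  rw [Finset.card_univ, Fintype.card_prod, Fintype.card_prod, Fintype.card_prod, Fintype.card_fun,
    Fintype.card_fin, Fintype.card_fin]
  apply le_of_eq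
  ring

theorem card_oset_le (r q w k : ℕ) : ∃ C : ℕ, ∀ n s d : ℕ,
    (oset n r q w k s d).card ≤ C * (n + s + d + 2) ^ (44 * (blk r q w k + 1)) := by
  obtain ⟨C, hC⟩ := grd_le
  refine ⟨C ^ (2 * blk r q w k + 2), fun n s d => ?_⟩
  refine (card_oset_le' n r q w k s d).trans ?_
  refine (Nat.pow_le_pow_left (hC n s d) _).trans ?_
  rw [mul_pow, ← pow_mul]
  apply le_of_eq
  congr 2
  ring

end ORB
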