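import Pool.Agent.Helper88.ORB.Ord

/-!
# ORB-07: the induction on the levels

`ohits_step`: copy `rhits_step` of `Helper4/RK/Hit.lean` (all the lemmas used there are available: `exists_max_point'`, `modif_read`, `pow_le_trn`, `det_exchange`, `tp_rank_le`, `ev_tp`, `det_eq_tp`, ..; `hS.joined`,
`hS.mono`, `hS.const` are fields of `IsOL`; `hS.nonempty k` from `nonempty₀` and `mono`). Case A is unchanged (level `k + trO ..` instead of `k + trn ..`). In case B:
* let `D` be the tensor chain of `rhits_step` (width `card κ ^ r`, reading the variables as `v`), `B` its sets of `exists_badSet` (`hv : IsRd N k' n v`);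
* `x₀ ∈ S k` is chosen with all `g p x₀ ≠ 0` AND `∏ j < N, ∏ c ∈ B j, (x₀ j - c) ≠ 0`: `(hS.joined k).prod` for the index type `ℕ × ℕ ⊕ ℕ` (or first `prod`, then `mul`): for `j < N` the function
`x ↦ ∏ c ∈ B j, (x j - c)` is polynomial (`IsPoly.coord`) and not zero somewhere on `S k` (`const` gives a point of `S 0 ⊆ S k` with `x j` outside the finite set `B j`, `Infinite.exists_notMem_finset`);
* `modif_read` gives `s ⊆ range N`, `s.card ≤ trn k' (card κ ^ r)`, `z` with `D.val n z ≠ 0`; `exists_badSet` gives `DirLE N (s.card * dm k' (card κ ^ r)) (D.val n) x₀`, and `hS.taylor` a point of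
`S (k + s.card * dm ..) ⊆ S (k + trO ..)` (`IsOL.mono'`) where `D.val n ≠ 0`, i.e. the determinant is not zero (`hval`).
`IsPoly (fun z => D.val n z)`: `MIsPoly.dot (MIsPoly.segx ..)`.
-/

set_option autoImplicit false

namespace ORB

open Pool.Agent.Helper4.RK (RHits IsRd exists_max_point' trn pow_le_trn modif_read)
open Pool.Agent.Helper4.RO Pool.Agent.Helper91.Clus

variable {F : Type*} [Field F] {κ : Type*} [Fintype κ] [DecidableEq κ]

theorem IsOL.mono' {N : ℕ} {S : ℕ → Set (ℕ → F)} (hS : IsOL N S) {k k' : ℕ} (h : k ≤ k') :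
    S k ⊆ S k' := by
  induction k', h using Nat.le_induction with
  | base => exact subset_rfl
  | succ b _ ih => exact ih.trans (hS.mono b)

theorem ohits_step [CharZero F] {N k' : ℕ} {S : ℕ → Set (ℕ → F)} (hS : IsOL N S) {k r : ℕ}
    (hrec : ∀ r', r < r' → RHits N k' κ (S k) r') :
    RHits N k' κ (S (k + trO k' (Fintype.card κ ^ r))) r := by
  classical
  have hmono : ∀ {k k' : ℕ}, k ≤ k' → S k ⊆ S k' := fun h => hS.mono' h
  have hnon : ∀ k, (S k).Nonempty := fun k => hS.nonempty₀.mono (hmono (Nat.zero_le k))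
  intro n
  induction n using Nat.strong_induction_on with
  | _ n ih =>
  intro v M E E' hv hne
  obtain ⟨x, hx⟩ := hne
  by_cases hA : ∃ i j, 1 ≤ i ∧ i ≤ j ∧ j < n ∧ ∀ x, (segx M v x i j).rank ≤ r
  · obtain ⟨i, j, hi, hij, hj, hr⟩ := hA
    have h0 : ∀ z : ℕ → F, segx M v z 0 n = segx M v z 0 i * segx M v z i j * segx M v z j n := by
      intro z
      rw [segx_mul _ _ _ (Nat.zero_le i) hij, segx_mul _ _ _ (Nat.zero_le j) hj.le]
    have hrk : r ≤ (segx M v x i j).rank := by
      have h1 := le_rank_of_det_ne_zero _ _ _ hx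
      rw [h0] at h1
      exact h1.trans (rank_mul_mul_le _ _ _)
    obtain ⟨P, Q, hPQ⟩ := exists_mul_eq_one _ hrk
    have hex : ∀ z : ℕ → F, (E * segx M v z 0 n * E').det * (P * segx M v z i j * Q).det =
        (E * segx M v z 0 j * Q).det * (P * segx M v z i n * E').det := by
      intro z
      have h1 := det_exchange (segx M v z i j) (hr z) (E * segx M v z 0 i) P
        (segx M v z j n * E') Q
      rw [h0, ← segx_mul M v z (Nat.zero_le i) hij, ← segx_mul M v z hij hj.le]
      simp only [Matrix.mul_assoc] at h1 ⊢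
      exact h1
    have h2 : (E * segx M v x 0 j * Q).det * (P * segx M v x i n * E').det ≠ 0 := by
      rw [← hex, hPQ, Matrix.det_one, mul_one]
      exact hx
    obtain ⟨x₁, hx₁, h₁⟩ := ih j hj v M E Q (by
      have := hv.shift (i := 0) hj.le
      simpa using this) ⟨x, left_ne_zero_of_mul h2⟩
    obtain ⟨x₂, hx₂, h₂⟩ := ih (n - i) (by omega) (fun l => v (i + l)) (fun l => M (i + l)) P E'
      (hv.shift le_rfl) ⟨x, by
        rw [← segx_shift]
        exact right_ne_zero_of_mul h2⟩
    rw [← segx_shift] at h₂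
    obtain ⟨x₃, hx₃, h₃⟩ := (hS.joined (k + trO k' (Fintype.card κ ^ r))).mul
      (((MIsPoly.const E).mul (MIsPoly.segx M v 0 j)).mul (MIsPoly.const Q)).det
      (((MIsPoly.const P).mul (MIsPoly.segx M v i n)).mul (MIsPoly.const E')).det
      ⟨x₁, hx₁, h₁⟩ ⟨x₂, hx₂, h₂⟩
    rw [← hex] at h₃
    exact ⟨x₃, hx₃, left_ne_zero_of_mul h₃⟩
  · push Not at hA
    -- a point with maximal ranks
    have hg : ∀ p ∈ (Finset.range n ×ˢ Finset.range n).filter fun p => 1 ≤ p.1 ∧ p.1 ≤ p.2,
        ∃ g : (ℕ → F) → F, IsPoly g ∧ (∃ x ∈ S k, g x ≠ 0) ∧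
          ∀ x₀, g x₀ ≠ 0 → ∀ x, (segx M v x p.1 p.2).rank ≤ (segx M v x₀ p.1 p.2).rank := by
      intro p hp
      rw [Finset.mem_filter, Finset.mem_product, Finset.mem_range, Finset.mem_range] at hp
      exact exists_max_point' hrec hv M hp.1.2.le (hA p.1 p.2 hp.2.1 hp.2.2 hp.1.2)
    choose! g hg1 hg2 hg3 using hg
    -- the tensor power
    set D : Chain F (Fin r → κ) := ⟨v, fun l => tp r (M l), tp r E (fun a => a),
      fun J => ∑ σ : Equiv.Perm (Fin r), ((Equiv.Perm.sign σ : ℤ) : F) * tp r E' J σ⟩ with hD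
    obtain ⟨B, hB⟩ := exists_badSet (N := N) (k := k') (n := n) D hv
    set t : Finset ((ℕ × ℕ) ⊕ ℕ) :=
      ((Finset.range n ×ˢ Finset.range n).filter fun p => 1 ≤ p.1 ∧ p.1 ≤ p.2).disjSum
        (Finset.range N) with ht
    obtain ⟨x₀, hx₀, h₀⟩ := (hS.joined k).prod (hnon k) t
      (Sum.elim g fun j x => (∏ c ∈ B j, (Polynomial.X - Polynomial.C c)).eval (x j)) (by
        rintro (p | j) hp
        · rw [ht, Finset.inl_mem_disjSum] at hp
          exact hg1 p hp
        · exact IsPoly.coord _ j) (by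
        rintro (p | j) hp
        · rw [ht, Finset.inl_mem_disjSum] at hp
          exact hg2 p hp
        · rw [ht, Finset.inr_mem_disjSum, Finset.mem_range] at hp
          obtain ⟨c, hc⟩ := Infinite.exists_notMem_finset (B j)
          obtain ⟨y, hy, hyc⟩ := hS.const j hp c
          refine ⟨y, hmono (Nat.zero_le k) hy, ?_⟩
          change (∏ c ∈ B j, (Polynomial.X - Polynomial.C c)).eval (y j) ≠ 0
          rw [Polynomial.eval_prod, Finset.prod_ne_zero_iff]
          intro a ha
          rw [Polynomial.eval_sub, Polynomial.eval_X, Polynomial.eval_C, sub_ne_zero, hyc]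
          rintro rfl
          exact hc ha)
    have hmax : ∀ i j, 1 ≤ i → i ≤ j → j < n → ∀ x, (segx M v x i j).rank ≤
        (segx M v x₀ i j).rank := by
      intro i j hi hij hj y
      have hp : ((i, j) : ℕ × ℕ) ∈ (Finset.range n ×ˢ Finset.range n).filter
          fun p => 1 ≤ p.1 ∧ p.1 ≤ p.2 := by
        rw [Finset.mem_filter, Finset.mem_product, Finset.mem_range, Finset.mem_range]
        exact ⟨⟨lt_of_le_of_lt hij hj, hj⟩, hi, hij⟩
      have h1 := h₀ (Sum.inl (i, j)) (by rw [ht, Finset.inl_mem_disjSum]; exact hp)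
      exact hg3 _ hp x₀ h1 y
    have hbad : ∀ j < N, x₀ j ∉ B j := by
      intro j hj hc
      have h1 := h₀ (Sum.inr j) (by rw [ht, Finset.inr_mem_disjSum, Finset.mem_range]; exact hj)
      apply h1
      change (∏ c ∈ B j, (Polynomial.X - Polynomial.C c)).eval (x₀ j) = 0
      rw [Polynomial.eval_prod]
      apply Finset.prod_eq_zero hc
      rw [Polynomial.eval_sub, Polynomial.eval_X, Polynomial.eval_C, sub_self]
    have hval : ∀ z : ℕ → F, D.val n z = (E * segx M v z 0 n * E').det := by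
      intro z
      rw [Chain.val, segx, ev_tp, ← det_eq_tp]
      rfl
    obtain ⟨s, hs, hsc, z, hz, hz'⟩ := modif_read (N := N) (k := k') D (by
        rw [Fintype.card_fun, Fintype.card_fin]
        exact pow_le_trn _ _) hv.lt hv.le x₀ (by
        intro i j hi hij hj y
        rw [segx, segx, ev_tp, ev_tp]
        apply tp_rank_le
        exact hmax i j hi hij hj y) ⟨x, by
        rw [hval]
        exact hx⟩
    have hdir := hB x₀ hbad s hs z hz hz'
    have hpoly : IsPoly (fun y : ℕ → F => D.val n y) :=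
      (MIsPoly.segx D.M D.v 0 n).dot D.u D.w
    obtain ⟨y, hy, hy'⟩ := hS.taylor k _ _ x₀ hpoly hx₀ hdir
    refine ⟨y, hmono ?_ hy, ?_⟩
    · apply Nat.add_le_add_left
      unfold trO
      rw [Fintype.card_fun, Fintype.card_fin]
      exact Nat.mul_le_mul_right _ hsc
    · rw [← hval]
      exact hy'

end ORB
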