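import Pool.Agent.Helper88.ORB.Defs
import Pool.Agent.Helper53.JB.Ord
import Pool.Agent.Helper31.AO.Closed

/-!
# ORB-10: the lowest component of a sparse polynomial at a point of the torus

`tc c l F` is the component of degree `l` of `F (c + y)`. Let `c i ≠ 0` for all `i`, `F.support.card ≤ s`, `tc c l' F = 0` for `l' < l`. Then `tc c l F (x + y)` has rank `≤ s`.

Proof. Let `x_0..x_s, y_0..y_s` be points. For `z ∈ ℂ` let `M_z(i, j) = F (c_a (1 + z x_{i,a} / c_a) (1 + z y_{j,a} / c_a))_a = ∑_{α ∈ supp F} coeff α F * ∏ a (c_a + z x_{i,a})^(α a) * ∏ a (1 + z y_{j,a} / c_a)^(α a)`: a sum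
of `≤ s` matrices `f_α(i) g_α(j)`, so `det M_z = 0` (as in `AO.minors`: product of an `(s+1) × s'` and an `s' × (s+1)` matrix, `s' = card supp F ≤ s`). The point is
`c + z (x_i + y_j + z v_ij)`, `v_ij = x_i y_j / c`. Let `q_ij = aeval (fun a => C (c a) + X * (C (u a) + X * C (v a))) F : Polynomial ℂ` with `u = x_i + y_j`. So `det (q_ij) = 0` in `ℂ[X]` (zero at all `z`).
CLAIM: `X ^ l ∣ q_ij` and the coefficient of `X ^ l` is `eval u (tc c l F)`. Indeed `q = eval₂` of `tay c F : Polynomial (MvPolynomial (Fin m) ℂ)` under `X ↦ X`, coefficients under `aeval (fun a => C (u a) + X * C (v a))`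
(two algebra homomorphisms `MvPolynomial (Fin m) ℂ → Polynomial ℂ` with the same values at the variables), so `q = ∑ m', X ^ m' * aeval (fun a => C (u a) + X * C (v a)) (tc c m' F)`; the terms with `m' < l` are zero,
those with `m' > l` are divisible by `X ^ (l+1)`, and the value at `0` of `aeval (fun a => C (u a) + X * C (v a)) (tc c l F)` is `eval u (tc c l F)`.
Write `q_ij = X ^ l * q'_ij`; `det (q'_ij) = 0` (`Matrix.det_mul_left`-type: `X ^ (l (s+1)) * det q' = 0`), at `X = 0`: `det (eval (x_i + y_j) (tc c l F)) = 0`. By the lemma `exists_core` (private in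
`Helper31/AO/Closed.lean`: copy it) with `φ x y = eval (x + y) (tc c l F)` there are `s' ≤ s` points `x0, y0` and `W` with `φ x y = ∑ k, φ x (y0 k) * ∑ l, W k l * φ (x0 l) y`; `x ↦ φ x (y0 k)` is
`bind₁ (fun i => X i + C (y0 k i)) (tc c l F)`. Pad to `s` by zeros (as in `Minors.ao`).
-/

set_option autoImplicit false

namespace ORB

open MvPolynomial JB
open Pool.Agent.Helper7.PD (RankLe)

private theorem exists_core {α β K : Type*} [Field K] (φ : α → β → K) (r : ℕ)
    (h : ∀ (x : Fin (r + 1) → α) (y : Fin (r + 1) → β), (Matrix.of fun i j => φ (x i) (y j)).det = 0) :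
    ∃ s ≤ r, ∃ (x0 : Fin s → α) (y0 : Fin s → β) (W : Matrix (Fin s) (Fin s) K), ∀ x y,
      φ x y = ∑ k, φ x (y0 k) * ∑ l, W k l * φ (x0 l) y := by
  classical
  let P : ℕ → Prop := fun s => ∃ (x : Fin s → α) (y : Fin s → β),
    (Matrix.of fun i j => φ (x i) (y j)).det ≠ 0
  have hP0 : P 0 := ⟨fun i => i.elim0, fun i => i.elim0, by simp⟩
  let s := Nat.findGreatest P r
  have hsr : s ≤ r := Nat.findGreatest_le r
  have hPs : P s := Nat.findGreatest_spec (Nat.zero_le r) hP0
  have hnext : ¬ P (s + 1) := by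
    rcases Nat.lt_or_ge s r with hlt | hge
    · exact Nat.findGreatest_is_greatest (Nat.lt_succ_self s) hlt
    · have hs : s = r := le_antisymm hsr hge
      rw [hs]
      rintro ⟨x, y, hxy⟩
      exact hxy (h x y)
  obtain ⟨x0, y0, hdet⟩ := hPs
  refine ⟨s, hsr, x0, y0, (Matrix.of fun i j => φ (x0 i) (y0 j))⁻¹, ?_⟩
  intro x y
  set N : Matrix (Fin s) (Fin s) K := Matrix.of fun i j => φ (x0 i) (y0 j) with hN
  have hNu : IsUnit N.det := isUnit_iff_ne_zero.mpr hdet
  have : Invertible N := Matrix.invertibleOfIsUnitDet N hNu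
  let M : Matrix (Fin s ⊕ Fin 1) (Fin s ⊕ Fin 1) K :=
    Matrix.fromBlocks N (Matrix.of fun i _ => φ (x0 i) y) (Matrix.of fun _ j => φ x (y0 j))
      (Matrix.of fun _ _ => φ x y)
  have hM0 : M.det = 0 := by
    by_contra hne
    apply hnext
    refine ⟨fun i => Sum.elim x0 (fun _ => x) (finSumFinEquiv.symm i),
      fun j => Sum.elim y0 (fun _ => y) (finSumFinEquiv.symm j), ?_⟩
    have h1 : (Matrix.of fun i j : Fin (s + 1) =>
        φ (Sum.elim x0 (fun _ => x) (finSumFinEquiv.symm i))
          (Sum.elim y0 (fun _ => y) (finSumFinEquiv.symm j)))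
        = M.submatrix finSumFinEquiv.symm finSumFinEquiv.symm := by
      ext i j
      simp only [Matrix.of_apply, Matrix.submatrix_apply]
      generalize (finSumFinEquiv.symm i : Fin s ⊕ Fin 1) = a
      generalize (finSumFinEquiv.symm j : Fin s ⊕ Fin 1) = b
      rcases a with a | a <;> rcases b with b | b <;> rfl
    rw [h1, Matrix.det_submatrix_equiv_self]
    exact hne
  have hM1 : M.det = N.det * (Matrix.of (fun _ _ => φ x y) - (Matrix.of fun _ j => φ x (y0 j)) * ⅟N *
      (Matrix.of fun i _ => φ (x0 i) y) : Matrix (Fin 1) (Fin 1) K).det :=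
    Matrix.det_fromBlocks₁₁ _ _ _ _
  rw [hM0] at hM1
  have h2 : (Matrix.of (fun _ _ => φ x y) - (Matrix.of fun _ j => φ x (y0 j)) * ⅟N *
      (Matrix.of fun i _ => φ (x0 i) y) : Matrix (Fin 1) (Fin 1) K).det = 0 := by
    rcases mul_eq_zero.mp hM1.symm with h3 | h3
    · exact absurd h3 hdet
    · exact h3
  rw [Matrix.det_unique, Matrix.sub_apply, sub_eq_zero, Matrix.of_apply, Matrix.mul_assoc,
    Matrix.mul_apply] at h2
  rw [h2]
  refine Finset.sum_congr rfl fun k _ => ?_
  rw [Matrix.of_apply, Matrix.mul_apply, Matrix.invOf_eq_nonsing_inv]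
  rfl

/-- A product through fewer dimensions has determinant zero. -/
private theorem det_mul_eq_zero_of_card {κ : Type*} [Fintype κ] {s : ℕ} (hκ : Fintype.card κ ≤ s)
    (A : Matrix (Fin (s + 1)) κ ℂ) (B : Matrix κ (Fin (s + 1)) ℂ) : (A * B).det = 0 := by
  classical
  by_contra hne
  have h2 : IsUnit (A * B) := by
    rw [Matrix.isUnit_iff_isUnit_det]
    exact isUnit_iff_ne_zero.mpr hne
  have h3 := Matrix.rank_of_isUnit _ h2
  have h4 := Matrix.rank_mul_le_left A B
  have h5 := Matrix.rank_le_card_width A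
  rw [h3] at h4
  have h6 := h4.trans h5
  simp only [Fintype.card_fin] at h6
  omega

/-- The Taylor expansion along the curve `c + z (u + z v)`. -/
private theorem exists_div {m l : ℕ} {F : MvPolynomial (Fin m) ℂ} {c : Fin m → ℂ}
    (hl : ∀ l' < l, tc c l' F = 0) (u v : Fin m → ℂ) :
    ∃ q' : Polynomial ℂ, aeval (fun a => Polynomial.C (c a) + Polynomial.X *
        (Polynomial.C (u a) + Polynomial.X * Polynomial.C (v a))) F = Polynomial.X ^ l * q' ∧
      q'.eval 0 = eval u (tc c l F) := by
  classical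
  set ψ : MvPolynomial (Fin m) ℂ →ₐ[ℂ] Polynomial ℂ :=
    aeval (fun a => Polynomial.C (u a) + Polynomial.X * Polynomial.C (v a)) with hψ
  set P := tay c F with hP
  have h1 : aeval (fun a => Polynomial.C (c a) + Polynomial.X *
      (Polynomial.C (u a) + Polynomial.X * Polynomial.C (v a))) F =
      Polynomial.eval₂ (ψ : MvPolynomial (Fin m) ℂ →+* Polynomial ℂ) Polynomial.X P := by
    have h2 : ((aeval (fun a => Polynomial.C (c a) + Polynomial.X *
        (Polynomial.C (u a) + Polynomial.X * Polynomial.C (v a))) :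
          MvPolynomial (Fin m) ℂ →ₐ[ℂ] Polynomial ℂ) : MvPolynomial (Fin m) ℂ →+* Polynomial ℂ) =
        (Polynomial.eval₂RingHom (ψ : MvPolynomial (Fin m) ℂ →+* Polynomial ℂ)
          Polynomial.X).comp
          ((tay c : MvPolynomial (Fin m) ℂ →ₐ[ℂ] Polynomial (MvPolynomial (Fin m) ℂ)) :
            MvPolynomial (Fin m) ℂ →+* Polynomial (MvPolynomial (Fin m) ℂ)) := by
      apply MvPolynomial.ringHom_ext
      · intro r
        simp only [RingHom.coe_coe, RingHom.comp_apply, tay, ← MvPolynomial.algebraMap_eq,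
          AlgHom.commutes]
        rw [show (algebraMap ℂ (Polynomial (MvPolynomial (Fin m) ℂ))) r =
          Polynomial.C (algebraMap ℂ (MvPolynomial (Fin m) ℂ) r) from rfl]
        simp [hψ]
      · intro a
        simp [tay, hψ]
        ring
    exact RingHom.congr_fun h2 F
  set n := max (P.natDegree + 1) (l + 1) with hn
  have h3 : Polynomial.eval₂ (ψ : MvPolynomial (Fin m) ℂ →+* Polynomial ℂ) Polynomial.X P =
      ∑ i ∈ Finset.range n, ψ (tc c i F) * Polynomial.X ^ i := by
    rw [Polynomial.eval₂_eq_sum_range' (ψ : MvPolynomial (Fin m) ℂ →+* Polynomial ℂ)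
      (n := n) (by omega) Polynomial.X]
    rfl
  refine ⟨∑ i ∈ Finset.range n, (if l ≤ i then ψ (tc c i F) * Polynomial.X ^ (i - l) else 0),
    ?_, ?_⟩
  · rw [h1, h3, Finset.mul_sum]
    refine Finset.sum_congr rfl fun i _ => ?_
    split_ifs with h
    · rw [mul_left_comm, ← pow_add, Nat.add_sub_cancel' h]
    · rw [hl i (by omega), map_zero, zero_mul, mul_zero]
  · rw [Polynomial.eval_finsetSum, Finset.sum_eq_single l]
    · rw [if_pos le_rfl, Nat.sub_self, pow_zero, mul_one]
      have h4 : ((Polynomial.evalRingHom (0 : ℂ)).comp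
          (ψ : MvPolynomial (Fin m) ℂ →+* Polynomial ℂ)) =
          (eval u : MvPolynomial (Fin m) ℂ →+* ℂ) := by
        apply MvPolynomial.ringHom_ext
        · intro r
          simp [hψ]
        · intro a
          simp [hψ]
      exact RingHom.congr_fun h4 (tc c l F)
    · intro i _ hi
      split_ifs with h
      · have : i - l ≠ 0 := by omega
        rw [Polynomial.eval_mul, Polynomial.eval_pow, Polynomial.eval_X, zero_pow this, mul_zero]
      · exact Polynomial.eval_zero
    · intro h
      exact absurd (Finset.mem_range.2 (by omega)) h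

private theorem det_tc {m s l : ℕ} {F : MvPolynomial (Fin m) ℂ} (hF : F.support.card ≤ s)
    {c : Fin m → ℂ} (hc : ∀ i, c i ≠ 0) (hl : ∀ l' < l, tc c l' F = 0)
    (x y : Fin (s + 1) → Fin m → ℂ) :
    (Matrix.of fun i j => eval (x i + y j) (tc c l F)).det = 0 := by
  classical
  have hq := fun i j => exists_div hl (x i + y j) (fun a => x i a * y j a / c a)
  choose q' hq1 hq2 using hq
  set Q : Matrix (Fin (s + 1)) (Fin (s + 1)) (Polynomial ℂ) := Matrix.of fun i j =>
    aeval (fun a => Polynomial.C (c a) + Polynomial.X * (Polynomial.C ((x i + y j) a) +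
      Polynomial.X * Polynomial.C (x i a * y j a / c a))) F with hQ
  have hQ0 : Q.det = 0 := by
    refine Polynomial.funext fun z => ?_
    rw [Polynomial.eval_zero]
    have h1 : Polynomial.eval z Q.det = (Matrix.of fun i j => Polynomial.eval z (Q i j)).det := by
      rw [← Polynomial.coe_evalRingHom, RingHom.map_det]
      rfl
    rw [h1]
    have h2 : (Matrix.of fun i j => Polynomial.eval z (Q i j)) =
        (Matrix.of fun (i : Fin (s + 1)) (α : F.support) =>
          coeff (α : Fin m →₀ ℕ) F * ∏ a, (c a + z * x i a) ^ ((α : Fin m →₀ ℕ) a)) *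
        (Matrix.of fun (α : F.support) (j : Fin (s + 1)) =>
          ∏ a, (1 + z * y j a / c a) ^ ((α : Fin m →₀ ℕ) a)) := by
      ext i j
      rw [Matrix.mul_apply]
      simp only [Matrix.of_apply]
      have h3 : Polynomial.eval z (Q i j) =
          eval (fun a => (c a + z * x i a) * (1 + z * y j a / c a)) F := by
        rw [hQ, Matrix.of_apply]
        have h4 : ((Polynomial.evalRingHom z).comp
            ((aeval (fun a => Polynomial.C (c a) + Polynomial.X * (Polynomial.C ((x i + y j) a) +
              Polynomial.X * Polynomial.C (x i a * y j a / c a))) :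
                MvPolynomial (Fin m) ℂ →ₐ[ℂ] Polynomial ℂ) :
                  MvPolynomial (Fin m) ℂ →+* Polynomial ℂ)) =
            (eval (fun a => (c a + z * x i a) * (1 + z * y j a / c a)) :
              MvPolynomial (Fin m) ℂ →+* ℂ) := by
          apply MvPolynomial.ringHom_ext
          · intro r
            simp
          · intro a
            have := hc a
            simp only [RingHom.comp_apply, RingHom.coe_coe, aeval_X, Polynomial.coe_evalRingHom,
              Polynomial.eval_add, Polynomial.eval_mul, Polynomial.eval_C, Polynomial.eval_X,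
              eval_X, Pi.add_apply]
            field_simp
            ring
        exact RingHom.congr_fun h4 F
      rw [h3, eval_eq', ← Finset.sum_coe_sort F.support]
      refine Finset.sum_congr rfl fun α _ => ?_
      rw [mul_assoc, ← Finset.prod_mul_distrib]
      congr 1
      refine Finset.prod_congr rfl fun a _ => ?_
      rw [mul_pow]
    rw [h2]
    exact det_mul_eq_zero_of_card (by rw [Fintype.card_coe]; exact hF) _ _
  have hQ1 : Q = (Polynomial.X ^ l : Polynomial ℂ) • (Matrix.of q') := by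
    ext1 i j
    rw [Matrix.smul_apply, Matrix.of_apply, smul_eq_mul, ← hq1 i j]
    rfl
  rw [hQ1, Matrix.det_smul] at hQ0
  have h5 : (Matrix.of q').det = 0 := by
    rcases mul_eq_zero.1 hQ0 with h | h
    · exact absurd h (pow_ne_zero _ (pow_ne_zero _ Polynomial.X_ne_zero))
    · exact h
  have h6 : (Matrix.of fun i j => eval (x i + y j) (tc c l F)) =
      (Polynomial.evalRingHom (0 : ℂ)).mapMatrix (Matrix.of q') := by
    ext i j
    rw [RingHom.mapMatrix_apply, Matrix.map_apply, Matrix.of_apply, Matrix.of_apply,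
      Polynomial.coe_evalRingHom, hq2 i j]
  rw [h6, ← RingHom.map_det, h5, map_zero]

theorem rankLe_tc {m s l : ℕ} {F : MvPolynomial (Fin m) ℂ} (hF : F.support.card ≤ s)
    {c : Fin m → ℂ} (hc : ∀ i, c i ≠ 0) (hl : ∀ l' < l, tc c l' F = 0) :
    RankLe s (tc c l F) := by
  classical
  set f := tc c l F with hf
  obtain ⟨s', hs, x0, y0, W, hW⟩ := exists_core
    (fun x y : Fin m → ℂ => eval (x + y) f) s (det_tc hF hc hl)
  obtain ⟨t, rfl⟩ := Nat.exists_eq_add_of_le hs
  let A : Fin s' → MvPolynomial (Fin m) ℂ := fun k =>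
    bind₁ (fun i => X i + C (y0 k i)) f
  let B : Fin s' → MvPolynomial (Fin m) ℂ := fun k =>
    ∑ l, C (W k l) * bind₁ (fun i => C (x0 l i) + X i) f
  have hA : ∀ k x, eval x (A k) = eval (x + y0 k) f := by
    intro k x
    have h1 : (fun i => eval x (X i + C (y0 k i) : MvPolynomial (Fin m) ℂ)) = x + y0 k := by
      funext i
      simp
    rw [← h1]
    change eval₂Hom (RingHom.id ℂ) x (bind₁ _ f) = _
    rw [eval₂Hom_bind₁]
    rfl
  have hB : ∀ k y, eval y (B k) = ∑ l, W k l * eval (x0 l + y) f := by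
    intro k y
    simp only [B, map_sum, map_mul, eval_C]
    refine Finset.sum_congr rfl fun l _ => ?_
    congr 1
    have h1 : (fun i => eval y (C (x0 l i) + X i : MvPolynomial (Fin m) ℂ)) = x0 l + y := by
      funext i
      simp
    rw [← h1]
    change eval₂Hom (RingHom.id ℂ) y (bind₁ _ f) = _
    rw [eval₂Hom_bind₁]
    rfl
  refine ⟨Fin.append A (fun _ => 0), Fin.append B (fun _ => 0), fun x y => ?_⟩
  rw [Fin.sum_univ_add]
  simp only [Fin.append_left, Fin.append_right, map_zero, mul_zero, Finset.sum_const_zero,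
    add_zero]
  rw [hW x y]
  refine Finset.sum_congr rfl fun k _ => ?_
  rw [hA, hB]

end ORB
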